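import Mathlib
import Pool.Agent.N59.TT.Stm

/-!
Subgroups of free groups without free subgroups of rank two are cyclic.
-/

set_option autoImplicit false

namespace Pool.Agent.N896.TT_FC

open Pool.Agent.N59.TT

theorem main : S_FC := by
  classical
  intro X M hM
  haveI : IsFreeGroup M := subgroupIsFreeOfIsFree M
  let Y := IsFreeGroup.Generators M
  let e : M ≃* FreeGroup Y := IsFreeGroup.toFreeGroup M
  have hsub : ∀ a b : Y, a = b := by
    intro a b
    by_contra hab
    refine hM ⟨(e.symm.toMonoidHom).comp (FreeGroup.map ![a, b]), ?_⟩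
    rw [MonoidHom.coe_comp]
    refine e.symm.injective.comp (FreeGroup.map_injective ?_)
    intro i j hij
    fin_cases i <;> fin_cases j
    · rfl
    · exact absurd hij hab
    · exact absurd hij.symm hab
    · rfl
  rcases isEmpty_or_nonempty Y with hY | ⟨⟨y⟩⟩
  · refine ⟨1, ?_⟩
    rw [Subgroup.zpowers_one_eq_bot, Subgroup.eq_bot_iff_forall]
    intro x hx
    have h1 : e ⟨x, hx⟩ = e 1 := Subsingleton.elim _ _
    have h2 := e.injective h1
    exact congrArg Subtype.val h2
  · have hz : ∀ w : FreeGroup Y, w ∈ Subgroup.zpowers (FreeGroup.of y) := by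
      intro w
      have h1 : w ∈ Subgroup.closure (Set.range (FreeGroup.of : Y → FreeGroup Y)) := by
        rw [FreeGroup.closure_range_of]; trivial
      have h2 : Subgroup.closure (Set.range (FreeGroup.of : Y → FreeGroup Y)) ≤
          Subgroup.zpowers (FreeGroup.of y) := by
        rw [Subgroup.closure_le]
        rintro _ ⟨z, rfl⟩
        rw [hsub z y]
        exact Subgroup.mem_zpowers _
      exact h2 h1
    refine ⟨((e.symm (FreeGroup.of y) : M) : FreeGroup X), ?_⟩
    ext x
    constructor
    · intro hx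
      obtain ⟨n, hn⟩ := Subgroup.mem_zpowers_iff.1 (hz (e ⟨x, hx⟩))
      refine Subgroup.mem_zpowers_iff.2 ⟨n, ?_⟩
      have h1 : (e.symm (FreeGroup.of y)) ^ n = ⟨x, hx⟩ := by
        rw [← map_zpow, hn, MulEquiv.symm_apply_apply]
      have h2 := congrArg Subtype.val h1
      simpa using h2
    · intro hx
      obtain ⟨n, rfl⟩ := Subgroup.mem_zpowers_iff.1 hx
      exact M.zpow_mem (e.symm (FreeGroup.of y)).2 n

end Pool.Agent.N896.TT_FC
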