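import Pool.Agent.N906.KG.Stm
import Pool.Agent.N755.NT_UPA

/-!
# KG/RANK: Rankin's method with the optimal parameter
-/

set_option autoImplicit false

namespace Pool.Agent.N896.KG

open NumberField IsDedekindDomain Finset Filter Topology Pool.Agent.H691R3 Pool.Agent.W223.AK
open Pool.Agent.N906.NT (Cx cst)
open Pool.Agent.N906.KG

theorem rank (K : Type) [Field K] [NumberField K] (h : S_GUPK K) : S_RANK K := by
  intro n Δ r t ε hcx hε
  obtain ⟨u₀, hu₀, hu₀2, hgen⟩ := h n Δ r t 1 0 ε hcx one_pos le_rfl (by norm_num) hε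
  obtain ⟨Z₀, hZ₀⟩ := eventually_atTop.1
    (Pool.Agent.N755.NT.num (r := r) (t := t) (κ := 1) hcx.1 hcx.2.1 one_pos hε hu₀)
  refine ⟨max Z₀ 2, lt_max_of_lt_right (by norm_num), ?_⟩
  intro Z T F hZ hTZ hF
  obtain ⟨u, hu0, huu, hnum⟩ := hZ₀ Z ((le_max_left _ _).trans hZ)
  simp only [mul_one, one_mul] at hnum
  have hg := hgen u hu0 huu F (fun D hD => ⟨(hF D hD).1, (hF D hD).2.1⟩)
  simp only [one_pow, one_mul, zero_mul, sub_zero, mul_one] at hg
  have h1 : ∀ D ∈ F, Real.exp (-tl D) ≤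
      Real.exp (-((1 - u) * T)) * Real.exp (-(u * gl D) - tr D) := by
    intro D hD
    rw [← Real.exp_add]
    apply Real.exp_le_exp.2
    have h2 := (hF D hD).2.2
    have h3 : gl D = tl D - tr D := rfl
    have h4 : (1 - u) * T ≤ (1 - u) * gl D := mul_le_mul_of_nonneg_left h2 (by linarith)
    nlinarith
  calc ∑ D ∈ F, Real.exp (-tl D) ≤
      ∑ D ∈ F, Real.exp (-((1 - u) * T)) * Real.exp (-(u * gl D) - tr D) := Finset.sum_le_sum h1
    _ = Real.exp (-((1 - u) * T)) * ∑ D ∈ F, Real.exp (-(u * gl D) - tr D) := by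
        rw [Finset.mul_sum]
    _ ≤ Real.exp (-((1 - u) * T)) *
        Real.exp ((1 + ε) * t / (r * (r * (u * Real.log (1 / u))) ^ r)) :=
        mul_le_mul_of_nonneg_left hg (Real.exp_pos _).le
    _ ≤ _ := by
        rw [← Real.exp_add]
        apply Real.exp_le_exp.2
        have h5 : u * T ≤ u * Z := mul_le_mul_of_nonneg_left hTZ hu0.le
        linarith

end Pool.Agent.N896.KG
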