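import Pool.Agent.N404.KL.Stm

set_option autoImplicit false
set_option linter.unusedSectionVars false

/-!
# Project KL, part REP: repair of a signing in a locally sparse matrix
-/

namespace Pool.Agent.N896.KLREP

open Finset Classical

variable {Rw Cl J : Type} [Fintype Rw] [Fintype Cl] [Fintype J]

/-- the columns of the rows of `S` -/
noncomputable def W (c : Rw → J → Cl) (S : Finset Rw) : Finset Cl :=
  S.biUnion fun r => univ.image (c r)

lemma mem_W (c : Rw → J → Cl) (S : Finset Rw) (v : Cl) :
    v ∈ W c S ↔ ∃ r ∈ S, ∃ j, c r j = v := by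
  simp [W]

/-- the number of entries of the column `v` in the rows of `S` -/
noncomputable def dg (c : Rw → J → Cl) (S : Finset Rw) (v : Cl) : ℕ :=
  ((S ×ˢ (univ : Finset J)).filter fun p => c p.1 p.2 = v).card

/-- the columns with at least two entries in `S` -/
noncomputable def TT (c : Rw → J → Cl) (S : Finset Rw) : Finset Cl :=
  (W c S).filter fun v => 2 ≤ dg c S v

noncomputable def e2 (c : Rw → J → Cl) (S : Finset Rw) (T : Finset Cl) : ℕ :=
  (univ.filter fun p : Rw × J => p.1 ∈ S ∧ c p.1 p.2 ∈ T).card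

lemma card_eq (c : Rw → J → Cl) (S : Finset Rw) :
    S.card * Fintype.card J = ∑ v ∈ W c S, dg c S v := by
  have h := Finset.card_eq_sum_card_fiberwise (s := S ×ˢ (univ : Finset J)) (t := W c S)
    (f := fun p => c p.1 p.2) (by
      intro p hp
      simp only [coe_product, coe_univ, Set.mem_prod, mem_coe, Set.mem_univ, and_true] at hp
      simp only [mem_coe, mem_W]
      exact ⟨p.1, hp, p.2, rfl⟩)
  rw [card_product, card_univ] at h
  exact h

lemma e2_eq (c : Rw → J → Cl) (S : Finset Rw) (T : Finset Cl) :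
    e2 c S T = ∑ v ∈ T, dg c S v := by
  have h := Finset.card_eq_sum_card_fiberwise
    (s := univ.filter fun p : Rw × J => p.1 ∈ S ∧ c p.1 p.2 ∈ T) (t := T)
    (f := fun p => c p.1 p.2) (by
      intro p hp
      simp only [coe_filter, mem_univ, true_and, Set.mem_ofPred_eq] at hp
      exact hp.2)
  rw [e2, h]
  refine Finset.sum_congr rfl fun v hv => ?_
  rw [dg]
  congr 1
  ext p
  simp only [mem_filter, mem_univ, true_and, mem_product, and_true]
  constructor
  · rintro ⟨⟨h1, h2⟩, h3⟩; exact ⟨h1, h3⟩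
  · rintro ⟨h1, h3⟩; exact ⟨⟨h1, by rw [h3]; exact hv⟩, h3⟩

lemma dg_pos (c : Rw → J → Cl) (S : Finset Rw) (v : Cl) (hv : v ∈ W c S) : 1 ≤ dg c S v := by
  rw [mem_W] at hv
  obtain ⟨r, hr, j, hj⟩ := hv
  apply Finset.card_pos.2
  exact ⟨(r, j), by simp [hr, hj]⟩

/-- `|J||S| - |W| = e2 - |T|` -/
lemma phi_eq (c : Rw → J → Cl) (S : Finset Rw) :
    S.card * Fintype.card J + (TT c S).card = (W c S).card + e2 c S (TT c S) := by
  have h1 : (TT c S).card = ∑ v ∈ W c S, if 2 ≤ dg c S v then 1 else 0 := by
    rw [TT, Finset.card_filter]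
  have h2 : e2 c S (TT c S) = ∑ v ∈ W c S, if 2 ≤ dg c S v then dg c S v else 0 := by
    rw [e2_eq, TT, Finset.sum_filter]
  have h3 : (W c S).card = ∑ v ∈ W c S, 1 := by simp
  rw [card_eq c S, h1, h2, h3, ← Finset.sum_add_distrib, ← Finset.sum_add_distrib]
  refine Finset.sum_congr rfl fun v hv => ?_
  have := dg_pos c S v hv
  split_ifs <;> omega

lemma two_T (c : Rw → J → Cl) (S : Finset Rw) : 2 * (TT c S).card ≤ e2 c S (TT c S) := by
  rw [e2_eq c S, mul_comm, ← smul_eq_mul]
  apply Finset.card_nsmul_le_sum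
  intro v hv
  rw [TT, mem_filter] at hv
  exact hv.2

lemma card_W_le (c : Rw → J → Cl) (S : Finset Rw) : (W c S).card ≤ S.card * Fintype.card J := by
  rw [card_eq c S, Finset.card_eq_sum_ones]
  exact Finset.sum_le_sum fun v hv => dg_pos c S v hv

lemma part_a (c : Rw → J → Cl) (m : ℕ)
    (hsp : ∀ (S : Finset Rw) (T : Finset Cl), S.Nonempty → S.card + T.card ≤ m →
      5 * e2 c S T < 6 * (S.card + T.card)) (S : Finset Rw) (hS : S.Nonempty)
    (hm : S.card * (1 + Fintype.card J) ≤ m) :
    2 * (S.card * Fintype.card J) < 3 * S.card + 2 * (W c S).card := by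
  have h1 := phi_eq c S
  have h2 := two_T c S
  have h3 := card_W_le c S
  have h4 : (TT c S).card ≤ (W c S).card := card_le_card (filter_subset _ _)
  have h5 := hsp S (TT c S) hS (by
    have : S.card * (1 + Fintype.card J) = S.card + S.card * Fintype.card J := by ring
    omega)
  omega

/-- the number of columns of `r` which lie in `W S` -/
noncomputable def old (c : Rw → J → Cl) (S : Finset Rw) (r : Rw) : Finset J :=
  univ.filter fun j => c r j ∈ W c S

lemma card_W_insert (c : Rw → J → Cl) (S : Finset Rw) (r : Rw) :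
    (W c (insert r S)).card + (old c S r).card ≤ (W c S).card + Fintype.card J := by
  have h1 : W c (insert r S) ⊆ W c S ∪ ((univ.filter fun j => c r j ∉ W c S).image (c r)) := by
    intro v hv
    rw [mem_W] at hv
    obtain ⟨r', hr', j, hj⟩ := hv
    by_cases h : v ∈ W c S
    · exact mem_union_left _ h
    · apply mem_union_right
      rw [mem_insert] at hr'
      rcases hr' with hr' | hr'
      · subst hr'
        rw [mem_image]
        exact ⟨j, by simp [hj, h], hj⟩
      · exact absurd ((mem_W c S v).2 ⟨r', hr', j, hj⟩) h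
  have h2 := (card_le_card h1).trans (card_union_le _ _)
  have h3 : ((univ.filter fun j => c r j ∉ W c S).image (c r)).card ≤
    (univ.filter fun j => c r j ∉ W c S).card := card_image_le
  have h4 : (old c S r).card + (univ.filter fun j => c r j ∉ W c S).card = Fintype.card J := by
    rw [old, ← card_univ]
    exact card_filter_add_card_filter_not (s := (univ : Finset J)) (fun j => c r j ∈ W c S)
  omega

lemma part_b (c : Rw → J → Cl) (m t : ℕ) (B : Finset Rw)
    (hsp : ∀ (S : Finset Rw) (T : Finset Cl), S.Nonempty → S.card + T.card ≤ m →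
      5 * e2 c S T < 6 * (S.card + T.card)) (hB : B.card ≤ t)
    (hm : 2 * t * (1 + Fintype.card J) ≤ m) :
    ∃ S, B ⊆ S ∧ S.card ≤ 2 * t ∧ ∀ r, r ∉ S → (old c S r).card ≤ 2 := by
  let F : Finset (Finset Rw) := univ.filter fun S => B ⊆ S ∧ S.card ≤ 2 * B.card ∧
    (W c S).card + 3 * S.card ≤ S.card * Fintype.card J + 3 * B.card
  have hF : F.Nonempty := ⟨B, by
    simp only [F, mem_filter, mem_univ, true_and]
    refine ⟨Subset.refl _, by omega, ?_⟩
    have := card_W_le c B
    omega⟩
  obtain ⟨S, hSF, hmax⟩ := F.exists_max_image Finset.card hF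
  simp only [F, mem_filter, mem_univ, true_and] at hSF
  obtain ⟨hBS, hS2, hphi⟩ := hSF
  refine ⟨S, hBS, by omega, ?_⟩
  intro r hr
  by_contra hcon
  push Not at hcon
  have hne : S.Nonempty := by
    by_contra hS
    rw [not_nonempty_iff_eq_empty] at hS
    subst hS
    simp [old, W] at hcon
  have hmS : S.card * (1 + Fintype.card J) ≤ m := by
    refine le_trans (Nat.mul_le_mul_right _ ?_) hm
    omega
  have ha := part_a c m hsp S hne hmS
  have hlt : S.card < 2 * B.card := by omega
  have hins := card_W_insert c S r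
  have hcard : (insert r S).card = S.card + 1 := card_insert_of_notMem hr
  have hmem : insert r S ∈ F := by
    simp only [F, mem_filter, mem_univ, true_and]
    refine ⟨hBS.trans (subset_insert _ _), by omega, ?_⟩
    rw [hcard, add_mul, one_mul]
    omega
  have := hmax _ hmem
  omega

lemma part_c (c : Rw → J → Cl) (m : ℕ)
    (hsp : ∀ (S : Finset Rw) (T : Finset Cl), S.Nonempty → S.card + T.card ≤ m →
      5 * e2 c S T < 6 * (S.card + T.card)) (S : Finset Rw) (hS : S.Nonempty)
    (hm : S.card * (1 + Fintype.card J) ≤ m) :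
    ∃ r ∈ S, (old c (S.erase r) r).card ≤ 2 := by
  by_contra hcon
  push Not at hcon
  have h2 := two_T c S
  have h3 := card_W_le c S
  have h4 : (TT c S).card ≤ (W c S).card := card_le_card (filter_subset _ _)
  have h5 := hsp S (TT c S) hS (by
    have : S.card * (1 + Fintype.card J) = S.card + S.card * Fintype.card J := by ring
    omega)
  have h6 : 3 * S.card ≤ e2 c S (TT c S) := by
    have h7 : (S.sigma fun r => old c (S.erase r) r).card ≤ e2 c S (TT c S) := by
      rw [e2]
      apply card_le_card_of_injOn (fun p => (p.1, p.2))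
      · rintro ⟨r, j⟩ hp
        simp only [coe_sigma, Set.mem_sigma_iff, mem_coe] at hp
        obtain ⟨hr, hj⟩ := hp
        simp only [old, mem_filter, mem_univ, true_and] at hj
        rw [mem_W] at hj
        obtain ⟨r', hr', j', hj'⟩ := hj
        rw [mem_erase] at hr'
        simp only [coe_filter, mem_univ, true_and, Set.mem_ofPred_eq]
        refine ⟨hr, ?_⟩
        rw [TT, mem_filter, mem_W]
        refine ⟨⟨r, hr, j, rfl⟩, ?_⟩
        rw [dg]
        apply Nat.succ_le_of_lt
        apply Finset.one_lt_card.2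
        refine ⟨(r, j), by simp [hr], (r', j'), by simp [hr'.2, hj'], ?_⟩
        intro h
        exact hr'.1 (congrArg Prod.fst h).symm
      · rintro ⟨r, j⟩ _ ⟨r', j'⟩ _ h
        simp only [Prod.mk.injEq] at h
        obtain ⟨rfl, rfl⟩ := h
        rfl
    refine le_trans ?_ h7
    rw [card_sigma, mul_comm, ← smul_eq_mul]
    apply Finset.card_nsmul_le_sum
    intro r hr
    exact hcon r hr
  omega

lemma signs (a : J → ℝ) (ha : ∀ j, |a j| ≤ 1) (N : Finset J) :
    ∃ ε : J → ℝ, (∀ j, ε j = 1 ∨ ε j = -1) ∧ |∑ j ∈ N, a j * ε j| ≤ 1 := by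
  induction N using Finset.induction_on with
  | empty => exact ⟨fun _ => 1, fun _ => Or.inl rfl, by simp⟩
  | insert j N hj ih =>
    obtain ⟨ε, h1, h2⟩ := ih
    have key : ∃ e : ℝ, (e = 1 ∨ e = -1) ∧ |a j * e + ∑ i ∈ N, a i * ε i| ≤ 1 := by
      have h3 := ha j
      rw [abs_le] at h2 h3
      rcases le_total 0 (∑ i ∈ N, a i * ε i) with h | h
      · rcases le_total 0 (a j) with h' | h'
        · exact ⟨-1, Or.inr rfl, by rw [abs_le]; constructor <;> linarith⟩
        · exact ⟨1, Or.inl rfl, by rw [abs_le]; constructor <;> linarith⟩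
      · rcases le_total 0 (a j) with h' | h'
        · exact ⟨1, Or.inl rfl, by rw [abs_le]; constructor <;> linarith⟩
        · exact ⟨-1, Or.inr rfl, by rw [abs_le]; constructor <;> linarith⟩
    obtain ⟨e, he, hle⟩ := key
    refine ⟨fun i => if i = j then e else ε i, fun i => ?_, ?_⟩
    · by_cases h : i = j
      · simp [h, he]
      · simp [h, h1 i]
    · rw [Finset.sum_insert hj]
      have : ∑ i ∈ N, a i * (if i = j then e else ε i) = ∑ i ∈ N, a i * ε i := by
        refine Finset.sum_congr rfl fun i hi => ?_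
        rw [if_neg]
        rintro rfl
        exact hj hi
      rw [this]
      simpa using hle

lemma abs_sum_le_card (a : J → ℝ) (ha : ∀ j, |a j| ≤ 1) (z : J → ℝ) (k : ℝ)
    (hz : ∀ j, |z j| ≤ k) (N : Finset J) : |∑ j ∈ N, a j * z j| ≤ N.card * k := by
  calc |∑ j ∈ N, a j * z j| ≤ ∑ j ∈ N, |a j * z j| := abs_sum_le_sum_abs _ _
    _ ≤ ∑ j ∈ N, k := by
        refine Finset.sum_le_sum fun j _ => ?_
        rw [abs_mul]
        calc |a j| * |z j| ≤ 1 * k := mul_le_mul (ha j) (hz j) (abs_nonneg _) zero_le_one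
          _ = k := one_mul _
    _ = N.card * k := by rw [sum_const, nsmul_eq_mul]

lemma part_d (c : Rw → J → Cl) (a : Rw → J → ℝ) (m : ℕ)
    (hinj : ∀ r, Function.Injective (c r)) (ha : ∀ r j, |a r j| ≤ 1)
    (hsp : ∀ (S : Finset Rw) (T : Finset Cl), S.Nonempty → S.card + T.card ≤ m →
      5 * e2 c S T < 6 * (S.card + T.card)) (n : ℕ) : ∀ S : Finset Rw, S.card = n →
    S.card * (1 + Fintype.card J) ≤ m →
    ∃ y : Cl → ℝ, (∀ v, y v = 1 ∨ y v = -1) ∧ ∀ r ∈ S, |∑ j, a r j * y (c r j)| ≤ 3 := by
  induction n with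
  | zero =>
    intro S hS _
    rw [card_eq_zero] at hS
    subst hS
    exact ⟨fun _ => 1, fun _ => Or.inl rfl, by simp⟩
  | succ n ih =>
    intro S hS hm
    have hne : S.Nonempty := by rw [← card_pos]; omega
    obtain ⟨r, hr, hold⟩ := part_c c m hsp S hne hm
    have hcard : (S.erase r).card = n := by rw [card_erase_of_mem hr]; omega
    obtain ⟨y₀, hy₀, h0⟩ := ih (S.erase r) hcard (by
      refine le_trans (Nat.mul_le_mul_right _ ?_) hm
      omega)
    obtain ⟨ε, hε, hεs⟩ := signs (a r) (ha r) (univ.filter fun j => c r j ∉ W c (S.erase r))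
    let y : Cl → ℝ := fun v => if h : v ∉ W c (S.erase r) ∧ ∃ j, c r j = v then
      ε h.2.choose else y₀ v
    have hyW : ∀ v, v ∈ W c (S.erase r) → y v = y₀ v := by
      intro v hv
      simp only [y]
      rw [dif_neg]
      exact fun h => h.1 hv
    have hyN : ∀ j, c r j ∉ W c (S.erase r) → y (c r j) = ε j := by
      intro j hj
      have h : c r j ∉ W c (S.erase r) ∧ ∃ j', c r j' = c r j := ⟨hj, j, rfl⟩
      simp only [y]
      rw [dif_pos h]
      congr 1
      exact hinj r h.2.choose_spec
    have hy1 : ∀ v, y v = 1 ∨ y v = -1 := by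
      intro v
      simp only [y]
      split_ifs with h
      · exact hε _
      · exact hy₀ v
    refine ⟨y, hy1, ?_⟩
    intro r' hr'
    by_cases hrr : r' = r
    · subst hrr
      rw [← Finset.sum_filter_add_sum_filter_not univ (fun j => c r' j ∈ W c (S.erase r'))]
      have e1 : ∑ j ∈ univ.filter (fun j => c r' j ∉ W c (S.erase r')), a r' j * y (c r' j) =
          ∑ j ∈ univ.filter (fun j => c r' j ∉ W c (S.erase r')), a r' j * ε j := by
        refine Finset.sum_congr rfl fun j hj => ?_
        rw [mem_filter] at hj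
        rw [hyN j hj.2]
      rw [e1]
      have e2 := abs_sum_le_card (a r') (ha r') (fun j => y (c r' j)) 1 (fun j => by
        rcases hy1 (c r' j) with h | h <;> simp [h])
        (univ.filter (fun j => c r' j ∈ W c (S.erase r')))
      have e3 : ((univ.filter (fun j => c r' j ∈ W c (S.erase r'))).card : ℝ) ≤ 2 := by
        exact_mod_cast hold
      refine (abs_add_le _ _).trans ?_
      linarith
    · have hmem : r' ∈ S.erase r := mem_erase.2 ⟨hrr, hr'⟩
      have e1 : ∑ j, a r' j * y (c r' j) = ∑ j, a r' j * y₀ (c r' j) := by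
        refine Finset.sum_congr rfl fun j _ => ?_
        rw [hyW _ ((mem_W _ _ _).2 ⟨r', hmem, j, rfl⟩)]
      rw [e1]
      exact h0 r' hmem

theorem main : Pool.Agent.N404.KL.S_REP := by
  intro Rw Cl J _ _ _ c a x C₀ m t B hinj ha hx hC₀ hB hm hsp hgood
  have hsp' : ∀ (S : Finset Rw) (T : Finset Cl), S.Nonempty → S.card + T.card ≤ m →
      5 * e2 c S T < 6 * (S.card + T.card) := by
    intro S T h1 h2
    have := hsp S T h1 h2
    unfold e2
    convert this using 3
  obtain ⟨S, hBS, hS2, hout⟩ := part_b c m t B hsp' hB hm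
  obtain ⟨y₁, hy₁, hin⟩ := part_d c a m hinj ha hsp' S.card S rfl
    (le_trans (Nat.mul_le_mul_right _ hS2) hm)
  refine ⟨fun v => if v ∈ W c S then y₁ v else x v, fun v => ?_, fun r => ?_⟩
  · by_cases h : v ∈ W c S
    · simp [h, hy₁ v]
    · simp [h, hx v]
  · by_cases hr : r ∈ S
    · have e1 : ∑ j, a r j * (if c r j ∈ W c S then y₁ (c r j) else x (c r j)) =
          ∑ j, a r j * y₁ (c r j) := by
        refine Finset.sum_congr rfl fun j _ => ?_
        rw [if_pos ((mem_W _ _ _).2 ⟨r, hr, j, rfl⟩)]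
      rw [e1]
      linarith [hin r hr]
    · have hrB : r ∉ B := fun h => hr (hBS h)
      have e1 : ∑ j, a r j * (if c r j ∈ W c S then y₁ (c r j) else x (c r j)) =
          ∑ j, a r j * x (c r j) + ∑ j ∈ old c S r, a r j * (y₁ (c r j) - x (c r j)) := by
        rw [old, Finset.sum_filter, ← Finset.sum_add_distrib]
        refine Finset.sum_congr rfl fun j _ => ?_
        split_ifs with h <;> ring
      rw [e1]
      have e2 := abs_sum_le_card (a r) (ha r) (fun j => y₁ (c r j) - x (c r j)) 2 (fun j => by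
        rcases hy₁ (c r j) with h | h <;> rcases hx (c r j) with h' | h' <;> rw [h, h'] <;>
          norm_num) (old c S r)
      have e3 : ((old c S r).card : ℝ) ≤ 2 := by exact_mod_cast hout r hr
      refine (abs_add_le _ _).trans ?_
      linarith [hgood r hrB]

end Pool.Agent.N896.KLREP
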