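import Pool.Agent.N585.LB.Defs

/-!
# Project LB, part 2: condensation
-/

namespace Pool.Agent.N896.LBcond

open Cardinal Set Pool.Agent.N585.LB

universe u

theorem cofL (h : StmOmega.{u}) (L : Type u) [LinearOrder L]
    (hd : ∀ a b : L, a < b → ∃ c, a < c ∧ c < b) (hO : ¬ Nonempty (O1.{u} ↪o L)) (x : L)
    (hx : (Iio x).Nonempty) : ∃ s : ℕ → L, StrictMono s ∧ IsLUB (range s) x := by
  have h1 : ¬ ∀ C : Set ↥(Iio x), C.Countable → ∃ y, ∀ z ∈ C, z < y := by
    intro hC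
    obtain ⟨e⟩ := h.2.2.1 ↥(Iio x) hC
    exact hO ⟨e.trans (OrderEmbedding.subtype _)⟩
  push Not at h1
  obtain ⟨C, hC, hC2⟩ := h1
  obtain ⟨x0, hx0⟩ := hx
  obtain ⟨c0, hc0, -⟩ := hC2 ⟨x0, hx0⟩
  obtain ⟨f, hf⟩ := hC.exists_eq_range ⟨c0, hc0⟩
  have hg : ∀ p : ↥(Iio x), ∃ q : ↥(Iio x), p < q := by
    intro p
    obtain ⟨c, h1, h2⟩ := hd p.1 x p.2
    exact ⟨⟨c, h2⟩, h1⟩
  choose g hg using hg
  let s : ℕ → ↥(Iio x) := fun n => Nat.rec (f 0) (fun n p => g (max p (f n))) n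
  have hs : ∀ n, s (n + 1) = g (max (s n) (f n)) := fun n => rfl
  have hs1 : ∀ n, s n < s (n + 1) := by
    intro n
    rw [hs]
    exact (le_max_left _ _).trans_lt (hg _)
  have hs2 : ∀ n, f n < s (n + 1) := by
    intro n
    rw [hs]
    exact (le_max_right _ _).trans_lt (hg _)
  have hmono : StrictMono fun n : ℕ => (s n).1 := by
    apply strictMono_nat_of_lt_succ
    intro n
    exact hs1 n
  refine ⟨fun n : ℕ => (s n).1, hmono, ?_, ?_⟩
  · rintro _ ⟨n, rfl⟩
    exact le_of_lt (s n).2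
  · intro u hu
    by_contra hux
    push Not at hux
    obtain ⟨c, hc, hc2⟩ := hC2 ⟨u, hux⟩
    rw [hf] at hc
    obtain ⟨n, rfl⟩ := hc
    have h3 : ((s (n + 1) : ↥(Iio x)) : L) ≤ u := hu ⟨n + 1, rfl⟩
    have h4 : (f n : L) < s (n + 1) := hs2 n
    have h5 : u ≤ (f n : L) := hc2
    exact absurd (h5.trans_lt h4) (not_lt.2 h3)

theorem coiL (h : StmOmega.{u}) (L : Type u) [LinearOrder L]
    (hd : ∀ a b : L, a < b → ∃ c, a < c ∧ c < b) (hO : ¬ Nonempty ((O1.{u})ᵒᵈ ↪o L)) (x : L)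
    (hx : (Ioi x).Nonempty) : ∃ s : ℕ → L, StrictAnti s ∧ IsGLB (range s) x := by
  obtain ⟨s, h1, h2⟩ := cofL h Lᵒᵈ (fun a b hab => by
      obtain ⟨c, h1, h2⟩ := hd (OrderDual.ofDual b) (OrderDual.ofDual a) hab
      exact ⟨OrderDual.toDual c, h2, h1⟩)
    (fun ⟨e⟩ => hO ⟨e.dual⟩) (OrderDual.toDual x) hx
  exact ⟨fun n => OrderDual.ofDual (s n), fun a b hab => h1 hab, h2⟩

theorem upC (h : StmOmega.{u}) (L : Type u) [LinearOrder L] (hO : ¬ Nonempty (O1.{u} ↪o L))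
    (x : L) : {y : L | x ≤ y ∧ (Icc x y).Countable}.Countable := by
  by_contra hP
  set P : Set L := {y : L | x ≤ y ∧ (Icc x y).Countable} with hPdef
  have h1 : ∀ C : Set ↥P, C.Countable → ∃ y, ∀ z ∈ C, z < y := by
    intro C hC
    by_contra hcon
    push Not at hcon
    apply hP
    refine Set.Countable.mono (s₂ := ⋃ c ∈ C, Icc x (c : L)) ?_ (hC.biUnion fun c _ => c.2.2)
    intro y hy
    obtain ⟨c, hc, hc2⟩ := hcon ⟨y, hy⟩
    exact mem_iUnion₂.2 ⟨c, hc, hy.1, hc2⟩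
  obtain ⟨e⟩ := h.2.2.1 ↥P h1
  exact hO ⟨e.trans (OrderEmbedding.subtype _)⟩

theorem downC (h : StmOmega.{u}) (L : Type u) [LinearOrder L] (hO : ¬ Nonempty ((O1.{u})ᵒᵈ ↪o L))
    (x : L) : {y : L | y ≤ x ∧ (Icc y x).Countable}.Countable := by
  have h1 := upC h Lᵒᵈ (fun ⟨e⟩ => hO ⟨e.dual⟩) (OrderDual.toDual x)
  have h2 : {y : L | y ≤ x ∧ (Icc y x).Countable} = OrderDual.toDual ⁻¹'
      {y : Lᵒᵈ | OrderDual.toDual x ≤ y ∧ (Icc (OrderDual.toDual x) y).Countable} := by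
    ext y
    have h3 : (Icc (OrderDual.toDual x) (OrderDual.toDual y)) = OrderDual.ofDual ⁻¹' Icc y x := by
      ext z
      simp only [mem_Icc, mem_preimage]
      constructor
      · rintro ⟨h1, h2⟩
        exact ⟨h2, h1⟩
      · rintro ⟨h1, h2⟩
        exact ⟨h2, h1⟩
    show (y ≤ x ∧ (Icc y x).Countable) ↔ (y ≤ x ∧
      (Icc (OrderDual.toDual x) (OrderDual.toDual y)).Countable)
    rw [h3]
    constructor
    · rintro ⟨h1, h2⟩
      exact ⟨h1, h2.preimage OrderDual.ofDual.injective⟩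
    · rintro ⟨h1, h2⟩
      exact ⟨h1, h2.preimage OrderDual.toDual.injective⟩
  rw [h2]
  exact h1.preimage OrderDual.toDual.injective

theorem main1 (h : StmOmega.{u}) (S : Type u) [LinearOrder S] (hS : #S = ℵ₁)
    (hO : ¬ Nonempty (O1.{u} ↪o S)) (hO' : ¬ Nonempty ((O1.{u})ᵒᵈ ↪o S)) :
    ∃ T : Set S, InC ↥T ∧ #T = ℵ₁ := by
  let r : Setoid S :=
    { r := fun x y => (uIcc x y).Countable
      iseqv :=
        { refl := fun x => by simp
          symm := fun {x y} hxy => by rwa [uIcc_comm]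
          trans := fun {x y z} hxy hyz =>
            (hxy.union hyz).mono uIcc_subset_uIcc_union_uIcc } }
  have hr : ∀ x y : S, r x y ↔ (uIcc x y).Countable := fun x y => Iff.rfl
  have hconv : ∀ x y z : S, x ≤ y → y ≤ z → r x z → r x y := by
    intro x y z hxy hyz hxz
    rw [hr] at hxz ⊢
    refine hxz.mono ?_
    rw [uIcc_of_le hxy, uIcc_of_le (hxy.trans hyz)]
    exact Icc_subset_Icc_right hyz
  have hconv' : ∀ x y z : S, x ≤ y → y ≤ z → r x z → r y z := by
    intro x y z hxy hyz hxz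
    exact r.trans (r.symm (hconv x y z hxy hyz hxz)) hxz
  have hclass : ∀ x : S, {y | r x y}.Countable := by
    intro x
    refine ((upC h S hO x).union (downC h S hO' x)).mono ?_
    intro y hy
    rcases le_total x y with hxy | hxy
    · left
      refine ⟨hxy, ?_⟩
      have := (hr x y).1 hy
      rwa [uIcc_of_le hxy] at this
    · right
      refine ⟨hxy, ?_⟩
      have := (hr x y).1 hy
      rwa [uIcc_of_ge hxy] at this
  let rep : S → S := fun x => (Quotient.mk r x).out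
  have hrep : ∀ x, r (rep x) x := fun x => Quotient.mk_out (s := r) x
  have hrep2 : ∀ x y, r x y → rep x = rep y := by
    intro x y hxy
    have : Quotient.mk r x = Quotient.mk r y := Quotient.sound hxy
    simp only [rep, this]
  set T : Set S := range rep with hT
  have hTrep : ∀ t ∈ T, rep t = t := by
    rintro _ ⟨x, rfl⟩
    exact hrep2 _ _ (hrep x)
  have hTeq : ∀ s ∈ T, ∀ t ∈ T, r s t → s = t := by
    intro s hs t ht hst
    rw [← hTrep s hs, ← hTrep t ht]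
    exact hrep2 _ _ hst
  have hle : ∀ X : Set ↥T, ¬ X.Countable → #X = ℵ₁ := by
    intro X hX
    refine le_antisymm ?_ ?_
    · calc #X ≤ #T := mk_set_le X
        _ ≤ #S := mk_set_le T
        _ = ℵ₁ := hS
    · by_contra hlt
      exact hX (le_aleph0_iff_set_countable.1 (Order.lt_succ_iff.1 (by rw [succ_aleph0]; exact not_le.1 hlt)))
  have hTle : #T ≤ ℵ₁ := (mk_set_le T).trans hS.le
  have hT1 : #T = ℵ₁ := by
    refine le_antisymm hTle ?_
    by_contra hlt
    have hc : T.Countable := (countable_iff_lt_aleph_one T).2 (not_le.1 hlt)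
    have h1 : (univ : Set S).Countable := by
      refine (hc.biUnion (t := fun t _ => {y | r t y}) fun t _ => hclass t).mono ?_
      intro y _
      exact mem_iUnion₂.2 ⟨rep y, ⟨y, rfl⟩, hrep y⟩
    have h2 := (countable_iff_lt_aleph_one (univ : Set S)).1 h1
    rw [mk_univ, hS] at h2
    exact lt_irrefl _ h2
  have hdense : ∀ a b : ↥T, a < b → #(Ioo a b) = ℵ₁ := by
    intro a b hab
    refine hle _ fun hc => ?_
    have hab' : (a : S) < b := hab
    have hne : ¬ r a b := fun h => hab.ne (Subtype.ext (hTeq _ a.2 _ b.2 h))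
    apply hne
    rw [hr, uIcc_of_le hab'.le]
    refine (((hclass a).union (hclass b)).union
      (hc.biUnion (t := fun (t : ↥T) _ => {y | r (t : S) y}) fun t _ => hclass (t : S))).mono ?_
    intro z hz
    by_cases h1 : r a z
    · exact Or.inl (Or.inl h1)
    by_cases h2 : r b z
    · exact Or.inl (Or.inr h2)
    right
    have ha : (a : S) < rep z := by
      by_contra hcon
      push Not at hcon
      exact h1 (hconv' _ _ _ hcon hz.1 (hrep z))
    have hb : rep z < (b : S) := by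
      by_contra hcon
      push Not at hcon
      exact h2 (r.symm (hconv _ _ _ hz.2 hcon (r.symm (hrep z))))
    exact mem_iUnion₂.2 ⟨⟨rep z, ⟨z, rfl⟩⟩, ⟨ha, hb⟩, hrep z⟩
  have hd : ∀ a b : ↥T, a < b → ∃ c, a < c ∧ c < b := by
    intro a b hab
    have h1 : #(Ioo a b) ≠ 0 := by
      rw [hdense a b hab]
      exact (aleph_pos 1).ne'
    rw [mk_ne_zero_iff] at h1
    obtain ⟨⟨c, hc⟩⟩ := h1
    exact ⟨c, hc.1, hc.2⟩
  have hOT : ¬ Nonempty (O1.{u} ↪o ↥T) := fun ⟨e⟩ => hO ⟨e.trans (OrderEmbedding.subtype _)⟩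
  have hOT' : ¬ Nonempty ((O1.{u})ᵒᵈ ↪o ↥T) :=
    fun ⟨e⟩ => hO' ⟨e.trans (OrderEmbedding.subtype _)⟩
  refine ⟨T, ⟨?_, hdense, fun x hx => cofL h ↥T hd hOT x hx, fun x hx => coiL h ↥T hd hOT' x hx⟩,
    hT1⟩
  have h1 : Uncountable ↥T := by
    rw [← aleph1_le_mk_iff, hT1]
  obtain ⟨a, b, hab⟩ := exists_pair_ne ↥T
  rcases lt_or_gt_of_ne hab with h2 | h2
  · exact ⟨a, b, h2⟩
  · exact ⟨b, a, h2⟩

theorem inC_iso {A B : Type u} [LinearOrder A] [LinearOrder B] (e : A ≃o B) (h : InC A) :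
    InC B := by
  refine ⟨?_, ?_, ?_, ?_⟩
  · obtain ⟨a, b, hab⟩ := h.nontriv
    exact ⟨e a, e b, e.strictMono hab⟩
  · intro a b hab
    have h1 := h.dense (e.symm a) (e.symm b) (e.symm.strictMono hab)
    have h2 : Ioo a b = e '' Ioo (e.symm a) (e.symm b) := by
      rw [e.image_Ioo]
      simp
    rw [h2, mk_image_eq e.injective, h1]
  · intro x hx
    obtain ⟨y, hy⟩ := hx
    obtain ⟨s, h1, h2⟩ := h.cof (e.symm x) ⟨e.symm y, e.symm.strictMono hy⟩
    refine ⟨fun n => e (s n), e.strictMono.comp h1, ?_⟩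
    have h3 := (e.isLUB_image' (s := range s) (x := e.symm x)).2 h2
    rw [e.apply_symm_apply, ← range_comp] at h3
    exact h3
  · intro x hx
    obtain ⟨y, hy⟩ := hx
    obtain ⟨s, h1, h2⟩ := h.coi (e.symm x) ⟨e.symm y, e.symm.strictMono hy⟩
    refine ⟨fun n => e (s n), e.strictMono.comp_strictAnti h1, ?_⟩
    have h3 := (e.isGLB_image' (s := range s) (x := e.symm x)).2 h2
    rw [e.apply_symm_apply, ← range_comp] at h3
    exact h3

theorem stmCond (h : StmOmega.{u}) : StmCond.{u} := by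
  intro S _ hS hO hO'
  obtain ⟨S1, hS1⟩ := le_mk_iff_exists_set.1 (aleph1_le_mk S)
  obtain ⟨T, hT, hT1⟩ := main1 h ↥S1 hS1
    (fun ⟨e⟩ => hO ⟨e.trans (OrderEmbedding.subtype _)⟩)
    (fun ⟨e⟩ => hO' ⟨e.trans (OrderEmbedding.subtype _)⟩)
  let f : ↥S1 ↪o S := OrderEmbedding.subtype _
  let e : ↥T ≃o ↥(f '' T) :=
    { toEquiv := Equiv.Set.image f T f.injective
      map_rel_iff' := by
        intro a b
        show f a ≤ f b ↔ a ≤ b
        rw [f.le_iff_le]
        rfl }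
  exact ⟨f '' T, inC_iso e hT, by rw [mk_image_eq f.injective, hT1]⟩

end Pool.Agent.N896.LBcond
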