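import Pool.Agent.N906.QP.StmR
import Pool.Agent.N340.QP_FINQ
import Pool.Agent.N906.RS.Asy
import Pool.Agent.N521.QP.An

/-!
# QP/FINRQ: `q` points over a number field, ordered by the counting function (helper896)
-/

set_option autoImplicit false
set_option linter.unusedSectionVars false

namespace Pool.Agent.N896.QP

open NumberField IsDedekindDomain Finset Filter Topology Module
open Pool.Agent.H691R3 Pool.Agent.W223.AK Pool.Agent.N906.KG
open Pool.Agent.N170.KG (pr al_pr rep_eq_of rep_inf ht_rep of_rep off_of pt pt_rep pt_inj fin_pos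
  pts pts_finite pts_count)
open Pool.Agent.N340.QP (tr_eq ncl_bounds good_set sqrt_sum)
open Pool.Agent.N521.QP (ev_log ev_half sqrt_add_le' ev_low)

/-! ### Analysis -/

theorem ev_mainQ {q κ ε : ℝ} (hq : 3 ≤ q) (hκ : 0 < κ) (hκ1 : κ < 1) (hε : 0 < ε) (hε1 : ε ≤ 1) :
    ∀ᶠ H : ℝ in atTop, ∀ m G : ℝ, H / 2 ≤ m →
      G = max (κ * m) (q * m - (q - κ) * H) - q →
      2 * m - G + (1 + ε / 2) * √(8 * q * G / Real.log m) ≤
        (2 - κ) * H + q + (1 + ε) * √(24 * (q * κ / 3) * H / Real.log H) := by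
  have hq0 : 0 < q := by linarith
  have h0 : Tendsto (fun H : ℝ => Real.log (H / 2)) atTop atTop :=
    Real.tendsto_log_atTop.comp (tendsto_id.atTop_div_const two_pos)
  have h1 : Tendsto (fun H : ℝ => 8 * q * κ * H * Real.log (H / 2)) atTop atTop :=
    (tendsto_id.const_mul_atTop (by positivity)).atTop_mul_atTop₀ h0
  filter_upwards [ev_half (κ := q * κ / 3) (by positivity) hε, h0.eventually_gt_atTop 0,
    h1.eventually_ge_atTop ((8 * q ^ 2) ^ 2), eventually_gt_atTop (4 : ℝ)]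
    with H hH hL hb hH4 m G hm hG
  have e24 : 24 * (q * κ / 3) = 8 * q * κ := by ring
  rw [e24] at hH ⊢
  set L := Real.log (H / 2) with hLdef
  have hLm : L ≤ Real.log m := Real.log_le_log (by linarith) hm
  have hlm : 0 < Real.log m := lt_of_lt_of_le hL hLm
  set θ := m - H with hθ
  have e1 : κ * m = κ * H + κ * θ := by rw [hθ]; ring
  have e2 : q * m - (q - κ) * H = κ * H + q * θ := by rw [hθ]; ring
  have hκq : κ ≤ q := by linarith
  have habs := abs_nonneg θ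
  have hGu : G ≤ κ * H + q * |θ| := by
    rw [hG, e1, e2]
    have h2 := le_abs_self θ
    have h4 : κ * θ ≤ q * |θ| :=
      (mul_le_mul_of_nonneg_left h2 hκ.le).trans (mul_le_mul_of_nonneg_right hκq habs)
    have h4' : q * θ ≤ q * |θ| := mul_le_mul_of_nonneg_left h2 hq0.le
    have h5 : max (κ * H + κ * θ) (κ * H + q * θ) ≤ κ * H + q * |θ| :=
      max_le (by linarith) (by linarith)
    linarith
  have hmain : 2 * m - G ≤ (2 - κ) * H + q - |θ| := by
    rw [hG, e1, e2]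
    have e3 : m = H + θ := by rw [hθ]; ring
    rcases le_total 0 θ with h | h
    · rw [abs_of_nonneg h]
      have := le_max_right (κ * H + κ * θ) (κ * H + q * θ)
      have h6 : 3 * θ ≤ q * θ := mul_le_mul_of_nonneg_right hq h
      rw [e3]
      linarith
    · rw [abs_of_nonpos h]
      have := le_max_left (κ * H + κ * θ) (κ * H + q * θ)
      rw [e3]
      nlinarith
  have hk : 0 < 8 * q * κ * H / L := by positivity
  have hs : √(8 * q * G / Real.log m) ≤ √(8 * q * κ * H / L) + |θ| / 2 := by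
    have h2 : 8 * q * G / Real.log m ≤ 8 * q * κ * H / L + 8 * q ^ 2 * |θ| / L := by
      rw [← add_div]
      have h3 : 8 * q * G ≤ 8 * q * κ * H + 8 * q ^ 2 * |θ| := by
        have := mul_le_mul_of_nonneg_left hGu (show 0 ≤ 8 * q by positivity)
        calc 8 * q * G ≤ 8 * q * (κ * H + q * |θ|) := this
          _ = _ := by ring
      have h4 : 0 ≤ 8 * q * κ * H + 8 * q ^ 2 * |θ| := by positivity
      calc 8 * q * G / Real.log m ≤ (8 * q * κ * H + 8 * q ^ 2 * |θ|) / Real.log m := by gcongr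
        _ ≤ (8 * q * κ * H + 8 * q ^ 2 * |θ|) / L := by gcongr
    refine (Real.sqrt_le_sqrt h2).trans ((sqrt_add_le' hk (by positivity)).trans ?_)
    have h5 : 8 * q ^ 2 * |θ| / L / (2 * √(8 * q * κ * H / L)) ≤ |θ| / 2 := by
      have h6 : 0 < √(8 * q * κ * H / L) := Real.sqrt_pos.2 hk
      rw [div_div, div_le_div_iff₀ (by positivity) two_pos]
      have h7 : 8 * q ^ 2 ≤ L * √(8 * q * κ * H / L) := by
        have h8 : L * √(8 * q * κ * H / L) = √(8 * q * κ * H * L) := by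
          have h9 : 8 * q * κ * H * L = L ^ 2 * (8 * q * κ * H / L) := by
            field_simp
          rw [h9, Real.sqrt_mul (by positivity), Real.sqrt_sq hL.le]
        rw [h8]
        exact Real.le_sqrt_of_sq_le hb
      have h10 := mul_le_mul_of_nonneg_right h7 habs
      calc 8 * q ^ 2 * |θ| * 2 = 2 * (8 * q ^ 2 * |θ|) := by ring
        _ ≤ 2 * (L * √(8 * q * κ * H / L) * |θ|) := by linarith
        _ = |θ| * (L * (2 * √(8 * q * κ * H / L))) := by ring
    linarith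
  have h9 := Real.sqrt_nonneg (8 * q * κ * H / L)
  calc 2 * m - G + (1 + ε / 2) * √(8 * q * G / Real.log m)
      ≤ ((2 - κ) * H + q - |θ|) + (1 + ε / 2) * (√(8 * q * κ * H / L) + |θ| / 2) := by
        gcongr
    _ ≤ (2 - κ) * H + q + (1 + ε / 2) * √(8 * q * κ * H / L) := by nlinarith
    _ ≤ _ := by linarith

/-- the other factors -/
theorem ev_facQ {k ε e : ℝ} (hk : 0 < k) (hε : 0 < ε) (he : 0 ≤ e) (A B C D : ℝ) :
    ∀ᶠ H : ℝ in atTop, ∀ N : ℝ,
      N ≤ (A * H + B) * Real.exp (e * H + C + (1 + ε / 2) * √(24 * k * H / Real.log H)) +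
        D * Real.exp (e * H) + 1 →
      N ≤ Real.exp (e * H + (1 + ε) * √(24 * k * H / Real.log H)) := by
  filter_upwards [ev_log hk (6 / ε), eventually_ge_atTop (1 : ℝ),
    eventually_ge_atTop ((|A| + |B|) * Real.exp C + |D| + 1)] with H hH hH1 hH2 N hN
  refine hN.trans ?_
  set s := √(24 * k * H / Real.log H) with hs
  have hs0 : 0 ≤ s := Real.sqrt_nonneg _
  have hH0 : (0 : ℝ) < H := by linarith
  have h2 : H ^ 3 ≤ Real.exp (ε / 2 * s) := by
    rw [← Real.exp_log (by positivity : 0 < H ^ 3), Real.log_pow]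
    apply Real.exp_le_exp.2
    have h3 : 6 / ε * Real.log H * (ε / 2) ≤ s * (ε / 2) := by gcongr
    have h4 : 6 / ε * Real.log H * (ε / 2) = 3 * Real.log H := by
      field_simp
      ring
    push_cast
    linarith
  have h11 : Real.exp (e * H + C + (1 + ε / 2) * s) =
      Real.exp C * Real.exp (e * H + (1 + ε / 2) * s) := by
    rw [← Real.exp_add]
    congr 1
    ring
  have h12 : Real.exp (e * H) ≤ Real.exp (e * H + (1 + ε / 2) * s) := by
    apply Real.exp_le_exp.2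
    have : 0 ≤ (1 + ε / 2) * s := by positivity
    linarith
  have h12' : (1 : ℝ) ≤ Real.exp (e * H) := Real.one_le_exp (by positivity)
  have h13 : Real.exp (e * H + (1 + ε) * s) =
      Real.exp (e * H + (1 + ε / 2) * s) * Real.exp (ε / 2 * s) := by
    rw [← Real.exp_add]
    congr 1
    ring
  rw [h11, h13]
  set E := Real.exp (e * H + (1 + ε / 2) * s) with hE
  have hE0 : 0 < E := Real.exp_pos _
  have hC0 : 0 < Real.exp C := Real.exp_pos _
  have hA : A * H + B ≤ (|A| + |B|) * H := by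
    have h3 := mul_le_mul_of_nonneg_right (le_abs_self A) hH0.le
    have h4 := le_abs_self B
    have h5 : |B| ≤ |B| * H := le_mul_of_one_le_right (abs_nonneg B) hH1
    linarith
  have hD : D * Real.exp (e * H) ≤ |D| * H * E := by
    calc D * Real.exp (e * H) ≤ |D| * Real.exp (e * H) := by
          gcongr
          exact le_abs_self D
      _ ≤ |D| * E := by gcongr
      _ ≤ |D| * H * E := by
          gcongr
          exact le_mul_of_one_le_right (abs_nonneg D) hH1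
  have h1E : (1 : ℝ) ≤ H * E := by
    calc (1 : ℝ) ≤ E := h12'.trans h12
      _ ≤ H * E := le_mul_of_one_le_left hE0.le hH1
  calc (A * H + B) * (Real.exp C * E) + D * Real.exp (e * H) + 1
      ≤ (|A| + |B|) * H * (Real.exp C * E) + |D| * H * E + H * E := by
        gcongr
    _ = E * (((|A| + |B|) * Real.exp C + |D| + 1) * H) := by ring
    _ ≤ E * (H * H) := by gcongr
    _ ≤ E * H ^ 3 := by
        apply mul_le_mul_of_nonneg_left _ hE0.le
        nlinarith [mul_pos hH0 hH0]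
    _ ≤ E * Real.exp (ε / 2 * s) := by gcongr

section points

variable {K : Type} [Field K] [NumberField K] {q : ℕ}

/-- elements of the set -/
theorem mem_RV {T : Set (Pr K)} {α : Fin q → Fin 2 → K} {M M' L : ℝ}
    {P : Projectivization K (Fin 2 → K)} : P ∈ RV T α M M' (Real.exp L) ↔ Off1 α P ∧
      finrank ℚ K * ∑ l, ncl T (α l) P ≤ finrank ℚ K * L ∧
      M * (finrank ℚ K * ∑ l, ncl T (α l) P) < Height.logHeight P.rep ∧
      Height.logHeight P.rep ≤ M' * (finrank ℚ K * ∑ l, ncl T (α l) P) := by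
  have hd : (0 : ℝ) < finrank ℚ K := fin_pos
  unfold RV hh
  rw [Set.mem_ofPred_eq, Real.log_exp, lt_div_iff₀ hd, div_le_iff₀ hd, mul_le_mul_iff_right₀ hd]
  have e1 : ∀ a : ℝ, a * (finrank ℚ K * ∑ l, ncl T (α l) P) =
    a * (∑ l, ncl T (α l) P) * finrank ℚ K := fun a => by ring
  rw [e1, e1]

theorem RV_finite (T : Set (Pr K)) (α : Fin q → Fin 2 → K) {M M' : ℝ} (hM' : 0 < M') (X : ℝ) :
    (RV T α M M' X).Finite := by
  have hd : (0 : ℝ) < finrank ℚ K := fin_pos
  refine (pts_finite K (finrank ℚ K * (M' * Real.log X))).subset ?_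
  rintro P ⟨-, h1, -, h2⟩
  show Height.logHeight P.rep ≤ _
  unfold hh at h2
  rw [div_le_iff₀ hd] at h2
  have h3 := mul_le_mul_of_nonneg_left h1 hM'.le
  nlinarith

/-- **The upper bound.** -/
theorem upperR {κ₁ : ℝ} (h1 : S_BASQ K) (h3 : S_UPU K q κ₁) (hq : 3 ≤ q) {T : Set (Pr K)}
    (hT : T.Finite) {α : Fin q → Fin 2 → K} (hα0 : ∀ i, α i ≠ 0)
    (hα : ∀ i j, i ≠ j → α i 0 * α j 1 - α i 1 * α j 0 ≠ 0) {M M' : ℝ} (hM0 : 0 < M)
    (hMM : M < M') (hκ0 : 0 < (q : ℝ) - 1 / M) (hκ' : (q : ℝ) - 1 / M' < κ₁) (h6 : κ₁ ≤ 1)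
    {ε : ℝ} (hε : 0 < ε) (hε1 : ε ≤ 1) : ∀ᶠ H : ℝ in atTop,
      ((RV T α M M' (Real.exp (H / (M * finrank ℚ K)))).ncard : ℝ) ≤
        Real.exp ((2 - ((q : ℝ) - 1 / M)) * H +
          (1 + ε) * √(24 * (q * ((q : ℝ) - 1 / M) / 3) * H / Real.log H)) := by
  classical
  have hd : (0 : ℝ) < finrank ℚ K := fin_pos
  have hq3 : (3 : ℝ) ≤ q := by exact_mod_cast hq
  have hM'0 : 0 < M' := hM0.trans hMM
  have hinv : 1 / M' < 1 / M := one_div_lt_one_div_of_lt hM0 hMM
  obtain ⟨κ, hκ⟩ : ∃ κ : ℝ, κ = (q : ℝ) - 1 / M := ⟨_, rfl⟩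
  obtain ⟨κ', hκ'e⟩ : ∃ κ' : ℝ, κ' = (q : ℝ) - 1 / M' := ⟨_, rfl⟩
  rw [← hκ] at hκ0 ⊢
  rw [← hκ'e] at hκ'
  have hκκ : κ < κ' := by rw [hκ, hκ'e]; linarith
  have hκ1 : κ < 1 := by linarith
  have hMi : 1 / M = q - κ := by rw [hκ]; ring
  have hM'i : 1 / M' = q - κ' := by rw [hκ'e]; ring
  have hA := al_pr hα0 hα
  obtain ⟨S, hG, hTS⟩ := good_set h1 (by omega : 1 ≤ q) hT hA
  obtain ⟨-, hA2⟩ := h1 q (pr α) (by omega) hA
  obtain ⟨C₁, -, hA3⟩ := hA2 _ hG
  have hδ : 0 < min (κ / 2) (κ₁ - κ') := lt_min (by positivity) (by linarith)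
  obtain ⟨X₀, hX₀, hU⟩ := h3 (pr α) S (min (κ / 2) (κ₁ - κ')) (ε / 4) hA hG hδ (by positivity)
  obtain ⟨C, hC0, hC⟩ := pts_count K
  filter_upwards [ev_mainQ (q := q) (κ := κ) (ε := ε / 2) hq3 hκ0 hκ1 (by positivity) (by linarith),
    ev_facQ (k := q * κ / 3) (ε := ε) (e := 2 - κ) (by positivity) hε (by linarith) (M' / M) 2 q C,
    eventually_ge_atTop (2 * X₀), eventually_ge_atTop (4 * q / κ),
    eventually_ge_atTop (1 : ℝ)] with H hmain hfac hH1 hH2 hH3
  apply hfac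
  have hH0 : 0 < H := by linarith
  rw [div_le_iff₀ hκ0] at hH2
  obtain ⟨Y, hY⟩ : ∃ Y : ℝ, Y = H / M := ⟨_, rfl⟩
  have hYk : (q - κ) * H = Y := by rw [← hMi, hY]; ring
  have hY0 : 0 < Y := by rw [hY]; positivity
  have hdL : finrank ℚ K * (H / (M * finrank ℚ K)) = Y := by
    rw [hY]
    field_simp
  set L : ℝ := H / (M * finrank ℚ K) with hL
  have hfin := RV_finite T α (M := M) hM'0 (Real.exp L)
  obtain ⟨F, hF⟩ : ∃ F : Finset (Projectivization K (Fin 2 → K)), F = hfin.toFinset := ⟨_, rfl⟩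
  have hFm : ∀ P, P ∈ F ↔ P ∈ RV T α M M' (Real.exp L) := fun P => by
    rw [hF, Set.Finite.mem_toFinset]
  have hcard : (RV T α M M' (Real.exp L)).ncard = F.card := by
    rw [hF, Set.ncard_eq_toFinset_card _ hfin]
  rw [hcard]
  -- the pieces
  obtain ⟨Fm, hFmm⟩ : ∃ Fm : ℕ → Finset (Projectivization K (Fin 2 → K)), ∀ m, Fm m =
    F.filter (fun P => P.rep 1 ≠ 0 ∧ (m : ℝ) - 1 < Height.logHeight P.rep ∧
      Height.logHeight P.rep ≤ m) := ⟨_, fun _ => rfl⟩
  obtain ⟨I, hI⟩ : ∃ I : Finset ℕ, I = (Finset.range (⌊M' * Y + 1⌋₊ + 1)).filter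
    (fun m : ℕ => H / 2 < (m : ℝ)) := ⟨_, rfl⟩
  have hIcard : (I.card : ℝ) ≤ M' / M * H + 2 := by
    have h2 : I.card ≤ ⌊M' * Y + 1⌋₊ + 1 := by
      rw [hI]
      have := Finset.card_filter_le (Finset.range (⌊M' * Y + 1⌋₊ + 1)) (fun m : ℕ => H / 2 < (m : ℝ))
      rwa [Finset.card_range] at this
    have h3 : ((⌊M' * Y + 1⌋₊ : ℕ) : ℝ) ≤ M' * Y + 1 := Nat.floor_le (by positivity)
    have h4 : (I.card : ℝ) ≤ ((⌊M' * Y + 1⌋₊ + 1 : ℕ) : ℝ) := by exact_mod_cast h2
    push_cast at h4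
    have h5 : M' * Y = M' / M * H := by rw [hY]; ring
    linarith
  have hsub : F ⊆ (F.filter (fun P => Height.logHeight P.rep ≤ H)).filter
      (fun P => Height.logHeight P.rep ≤ H / 2) ∪
      (F.filter (fun P => P.rep 1 = 0) ∪ I.biUnion Fm) := by
    intro P hP
    rcases le_or_gt (Height.logHeight P.rep) (H / 2) with h2 | h2
    · exact mem_union_left _ (mem_filter.2 ⟨mem_filter.2 ⟨hP, by linarith⟩, h2⟩)
    refine mem_union_right _ ?_
    by_cases h0 : P.rep 1 = 0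
    · exact mem_union_left _ (mem_filter.2 ⟨hP, h0⟩)
    refine mem_union_right _ ?_
    obtain ⟨m1, m2, m3, m4⟩ := mem_RV.1 ((hFm P).1 hP)
    rw [hdL] at m2
    set h := Height.logHeight P.rep with hh
    have hh0 : 0 < h := by linarith
    have h5 : h ≤ M' * Y := m4.trans (mul_le_mul_of_nonneg_left m2 hM'0.le)
    have h6 := Nat.ceil_lt_add_one hh0.le
    refine mem_biUnion.2 ⟨⌈h⌉₊, ?_, ?_⟩
    · rw [hI]
      refine mem_filter.2 ⟨mem_range.2 (Nat.lt_succ_of_le (Nat.le_floor ?_)), ?_⟩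
      · linarith
      · exact h2.trans_le (Nat.le_ceil h)
    · rw [hFmm]
      exact mem_filter.2 ⟨hP, h0, by linarith, Nat.le_ceil h⟩
  have hB1 : (((F.filter (fun P => Height.logHeight P.rep ≤ H)).filter
      (fun P => Height.logHeight P.rep ≤ H / 2)).card : ℝ) ≤ C * Real.exp ((2 - κ) * H) := by
    have h2 : ((F.filter (fun P => Height.logHeight P.rep ≤ H)).filter
        (fun P => Height.logHeight P.rep ≤ H / 2)).card ≤ (pts K (H / 2)).ncard := by
      rw [← Set.ncard_coe_finset]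
      refine Set.ncard_le_ncard ?_ (pts_finite K _)
      intro P hP
      exact (mem_filter.1 (mem_coe.1 hP)).2
    have h3 := (hC (H / 2) (by positivity)).2
    have h4 : Real.exp (2 * (H / 2)) ≤ Real.exp ((2 - κ) * H) := by
      apply Real.exp_le_exp.2
      nlinarith
    calc _ ≤ ((pts K (H / 2)).ncard : ℝ) := by exact_mod_cast h2
      _ ≤ C * Real.exp (2 * (H / 2)) := h3
      _ ≤ _ := by gcongr
  have hB2 : (F.filter (fun P => P.rep 1 = 0)).card ≤ 1 := by
    rw [Finset.card_le_one]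
    intro P hP P' hP'
    exact rep_inf (mem_filter.1 hP).2 (mem_filter.1 hP').2
  have hB3 : ∀ m ∈ I, ((Fm m).card : ℝ) ≤ Real.exp ((2 - κ) * H + q +
      (1 + ε / 2) * √(24 * (q * κ / 3) * H / Real.log H)) := by
    intro m hm
    rw [hI, mem_filter, mem_range] at hm
    obtain ⟨hm1, hm2⟩ := hm
    have hm3 : (m : ℝ) ≤ M' * Y + 1 := by
      have h7 : ((⌊M' * Y + 1⌋₊ : ℕ) : ℝ) ≤ M' * Y + 1 := Nat.floor_le (by positivity)
      have h8 : (m : ℝ) ≤ ((⌊M' * Y + 1⌋₊ : ℕ) : ℝ) := by exact_mod_cast Nat.le_of_lt_succ hm1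
      linarith
    obtain ⟨G, hGe⟩ : ∃ G : ℝ, G = max (κ * m) (q * m - (q - κ) * H) - q := ⟨_, rfl⟩
    have hmm := hmain m G hm2.le hGe
    have e1 : 1 + ε / 2 / 2 = 1 + ε / 4 := by ring
    rw [e1] at hmm
    refine le_trans ?_ (Real.exp_le_exp.2 hmm)
    have hm0 : (0 : ℝ) < m := by linarith
    have hδ1 : min (κ / 2) (κ₁ - κ') * m ≤ G := by
      have h7 : min (κ / 2) (κ₁ - κ') * m ≤ κ / 2 * m :=
        mul_le_mul_of_nonneg_right (min_le_left _ _) hm0.le
      have h8 := le_max_left (κ * (m : ℝ)) (q * m - (q - κ) * H)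
      rw [hGe]
      nlinarith
    have hδ2 : G ≤ (κ₁ - min (κ / 2) (κ₁ - κ')) * m := by
      have h7 : κ' ≤ κ₁ - min (κ / 2) (κ₁ - κ') := by
        have := min_le_right (κ / 2) (κ₁ - κ')
        linarith
      have h8 : κ' * m ≤ (κ₁ - min (κ / 2) (κ₁ - κ')) * m :=
        mul_le_mul_of_nonneg_right h7 hm0.le
      have h9 : max (κ * (m : ℝ)) (q * m - (q - κ) * H) - q ≤ κ' * m := by
        have h10 : κ * (m : ℝ) ≤ κ' * m := mul_le_mul_of_nonneg_right hκκ.le hm0.le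
        have h11 : ((m : ℝ) - 1) * (1 / M') ≤ Y := by
          rw [mul_one_div, div_le_iff₀ hM'0]
          linarith
        rw [hM'i] at h11
        have h12 : max (κ * (m : ℝ)) (q * m - (q - κ) * H) ≤ κ' * m + q := by
          apply max_le
          · linarith
          · rw [hYk]
            linarith
        linarith
      rw [hGe]
      linarith
    have hinj : Set.InjOn (fun P : Projectivization K (Fin 2 → K) => P.rep 0 / P.rep 1)
        (Fm m : Set (Projectivization K (Fin 2 → K))) := by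
      intro P hP P' hP' e
      rw [hFmm] at hP hP'
      exact rep_eq_of (mem_filter.1 (mem_coe.1 hP)).2.1 (mem_filter.1 (mem_coe.1 hP')).2.1 e
    rw [← card_image_of_injOn hinj]
    refine hU m G _ (by linarith) hδ1 hδ2 ?_
    intro x hx
    obtain ⟨P, hP, rfl⟩ := mem_image.1 hx
    rw [hFmm] at hP
    obtain ⟨g0, g1, g2, g3⟩ := mem_filter.1 hP
    obtain ⟨m1, m2, m3, m4⟩ := mem_RV.1 ((hFm P).1 g0)
    rw [hdL] at m2
    have o1 := of_rep g1 m1
    obtain ⟨A, hPA⟩ := (hA3 _ o1).1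
    have hcop := ((hA3 _ o1).2.1 A hPA).1
    refine ⟨o1, ?_, ?_, A, hPA, ?_⟩
    · rw [← ht_rep]
      exact g2
    · rw [← ht_rep]
      exact g3
    · rw [tr_eq hcop, ← ht_rep]
      have m5 : ∑ l, rl (A l) ≤ finrank ℚ K * ∑ l, ncl T (α l) P := by
        rw [mul_sum]
        exact sum_le_sum fun l _ => (ncl_bounds hα0 hTS g1 m1 hPA l).1
      set n := (finrank ℚ K : ℝ) * ∑ l, ncl T (α l) P with hn
      set h := Height.logHeight P.rep with hh
      have m6 : n ≤ h * (1 / M) := by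
        rw [mul_one_div, le_div_iff₀ hM0]
        linarith
      rw [hMi] at m6
      have m7 : max (κ * (m : ℝ)) (q * m - (q - κ) * H) ≤ q * h - n + q := by
        have m8 : κ * ((m : ℝ) - h) ≤ κ * 1 := mul_le_mul_of_nonneg_left (by linarith) hκ0.le
        have m9 : (q : ℝ) * ((m : ℝ) - h) ≤ q * 1 :=
          mul_le_mul_of_nonneg_left (by linarith) (by linarith)
        apply max_le
        · linarith
        · rw [hYk]
          linarith
      rw [hGe]
      linarith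
  have hcF : F.card ≤ ((F.filter (fun P => Height.logHeight P.rep ≤ H)).filter
      (fun P => Height.logHeight P.rep ≤ H / 2)).card + (1 + ∑ m ∈ I, (Fm m).card) := by
    refine (card_le_card hsub).trans ((card_union_le _ _).trans ?_)
    have h4 := card_union_le (F.filter (fun P => P.rep 1 = 0)) (I.biUnion Fm)
    have h5 : (I.biUnion Fm).card ≤ ∑ m ∈ I, (Fm m).card := card_biUnion_le
    omega
  have hsum : (∑ m ∈ I, ((Fm m).card : ℝ)) ≤ (M' / M * H + 2) * Real.exp ((2 - κ) * H + q +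
      (1 + ε / 2) * √(24 * (q * κ / 3) * H / Real.log H)) := by
    refine (sum_le_card_nsmul I _ _ hB3).trans ?_
    rw [nsmul_eq_mul]
    gcongr
  have hcF' : (F.card : ℝ) ≤ (((F.filter (fun P => Height.logHeight P.rep ≤ H)).filter
      (fun P => Height.logHeight P.rep ≤ H / 2)).card : ℝ) + (1 + ∑ m ∈ I, ((Fm m).card : ℝ)) := by
    exact_mod_cast hcF
  linarith

/-- **The lower bound.** -/
theorem lowerR {κ₁ : ℝ} (h1 : S_BASQ K) (h4 : S_UPQ K q κ₁) (h5 : S_LOJ K) (hq : 3 ≤ q)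
    {T : Set (Pr K)}
    (hT : T.Finite) {α : Fin q → Fin 2 → K} (hα0 : ∀ i, α i ≠ 0)
    (hα : ∀ i j, i ≠ j → α i 0 * α j 1 - α i 1 * α j 0 ≠ 0) {M M' : ℝ} (hM0 : 0 < M)
    (hMM : M < M') (hκ0 : 0 < (q : ℝ) - 1 / M) (hκ' : (q : ℝ) - 1 / M' < κ₁) (h6 : κ₁ ≤ 1)
    {ε : ℝ} (hε : 0 < ε) (hε1 : ε < 1) : ∀ᶠ H : ℝ in atTop,
      Real.exp ((2 - ((q : ℝ) - 1 / M)) * H +
          (1 - ε) * √(24 * (q * ((q : ℝ) - 1 / M) / 3) * H / Real.log H)) ≤
      ((RV T α M M' (Real.exp (H / (M * finrank ℚ K)))).ncard : ℝ) := by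
  classical
  have hd : (0 : ℝ) < finrank ℚ K := fin_pos
  have hq3 : (3 : ℝ) ≤ q := by exact_mod_cast hq
  have hq0 : (0 : ℝ) < q := by linarith
  have hM'0 : 0 < M' := hM0.trans hMM
  have hinv : 1 / M' < 1 / M := one_div_lt_one_div_of_lt hM0 hMM
  obtain ⟨κ, hκ⟩ : ∃ κ : ℝ, κ = (q : ℝ) - 1 / M := ⟨_, rfl⟩
  obtain ⟨κ', hκ'e⟩ : ∃ κ' : ℝ, κ' = (q : ℝ) - 1 / M' := ⟨_, rfl⟩
  rw [← hκ] at hκ0 ⊢
  rw [← hκ'e] at hκ'
  have hκκ : κ < κ' := by rw [hκ, hκ'e]; linarith
  have hκ1 : κ < 1 := by linarith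
  have hMi : 1 / M = q - κ := by rw [hκ]; ring
  have hM'i : 1 / M' = q - κ' := by rw [hκ'e]; ring
  have hA := al_pr hα0 hα
  obtain ⟨S, hG, hTS⟩ := good_set h1 (by omega : 1 ≤ q) hT hA
  obtain ⟨-, hA2⟩ := h1 q (pr α) (by omega) hA
  obtain ⟨C₁, -, hA3⟩ := hA2 _ hG
  have hlog : 0 ≤ ∑ v ∈ S, Real.log (Nv v) := sum_nonneg fun v _ => (log_Nv_pos v).le
  have hsumκ : ∑ _l : Fin q, κ / (q : ℝ) = κ := by
    rw [sum_const, card_univ, Fintype.card_fin, nsmul_eq_mul, mul_div_cancel₀ _ hq0.ne']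
  obtain ⟨X₁, hX₁, hlo⟩ := h5 q (pr α) S (fun _ => κ / q) (ε / 2)
    (∑ v ∈ S, Real.log (Nv v) + 1) (by omega) hA hG (fun _ => by positivity)
    (by rw [hsumκ]; exact hκ0) (by rw [hsumκ]; exact hκ1) (by positivity) (by linarith)
    (by positivity)
  obtain ⟨X₂, hX₂, hup⟩ := h4 (pr α) S κ' 1 0 hA hG (hκ0.trans hκκ) hκ' one_pos le_rfl
  have hk : 0 < q * κ / 3 := by positivity
  filter_upwards [eventually_ge_atTop X₁, eventually_ge_atTop X₂, eventually_gt_atTop (0 : ℝ),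
    Real.tendsto_log_atTop.eventually_ge_atTop 1,
    eventually_ge_atTop (32 * q * κ' / (κ' - κ) ^ 2),
    ev_low (κ := q * κ / 3) (ε := ε / 2) hk (by positivity) (Real.log 2)]
    with H hH1 hH2 hH0 hlogH hH4 hH5
  obtain ⟨Y, hY⟩ : ∃ Y : ℝ, Y = H / M := ⟨_, rfl⟩
  have hYk : (q - κ) * H = Y := by rw [← hMi, hY]; ring
  have hdL : finrank ℚ K * (H / (M * finrank ℚ K)) = Y := by
    rw [hY]
    field_simp
  set L : ℝ := H / (M * finrank ℚ K) with hL
  obtain ⟨F, hF, hcard⟩ := hlo H hH1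
  have e0 : ∑ _l : Fin q, √(8 * (κ / q) * H / Real.log H) =
      √(24 * (q * κ / 3) * H / Real.log H) := by
    have e1 : 24 * (q * κ / 3) * H / Real.log H = 8 * q * κ * (H / Real.log H) := by ring
    rw [e1, ← sqrt_sum (by omega : 1 ≤ q)]
    exact sum_congr rfl fun _ _ => by rw [mul_div_assoc]
  rw [hsumκ, e0] at hcard
  -- the exceptions
  obtain ⟨n, hn⟩ : ∃ n : K → ℝ, ∀ x, n x = (finrank ℚ K : ℝ) * ∑ l, ncl T (α l) (pt x) :=
    ⟨_, fun _ => rfl⟩
  have key : ∀ x ∈ F, (Off1 α (pt x) ∧ n x < hr (aff x) * (q - κ)) ∧ hr (aff x) ≤ H ∧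
      Of (pr α) x ∧ ∃ A, IsP S (pr α) x A ∧ tr A ≤ n x := by
    intro x hx
    obtain ⟨o1, k1, -, A, hPA, htr⟩ := hF x hx
    obtain ⟨n1, e1⟩ := pt_rep x
    have f1 : Off1 α (pt x) := off_of n1 (by rw [e1]; exact o1)
    have hb : ∀ l, rl (A l) ≤ finrank ℚ K * ncl T (α l) (pt x) ∧
        finrank ℚ K * ncl T (α l) (pt x) ≤ rl (A l) + ∑ v ∈ S, Real.log (Nv v) := fun l =>
      ncl_bounds (S := S) hα0 hTS n1 f1 (by rw [e1]; exact hPA) l
    refine ⟨⟨f1, ?_⟩, k1, o1, A, hPA, ?_⟩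
    · rw [hn, mul_sum]
      have h8 : ∑ l, (finrank ℚ K : ℝ) * ncl T (α l) (pt x) ≤
          ∑ _l : Fin q, ((1 - κ / q) * hr (aff x) - 1) := by
        refine sum_le_sum fun l _ => ?_
        have h9 := (hb l).2
        have h10 := htr l
        linarith
      rw [sum_const, card_univ, Fintype.card_fin, nsmul_eq_mul] at h8
      have h11 : (q : ℝ) * ((1 - κ / q) * hr (aff x) - 1) = hr (aff x) * (q - κ) - q := by
        field_simp
      rw [h11] at h8
      linarith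
    · rw [tr_eq ((hA3 _ o1).2.1 A hPA).1, hn, mul_sum]
      exact sum_le_sum fun l _ => (hb l).1
  have hexc : ((F.filter fun x => n x < hr (aff x) * (q - κ')).card : ℝ) ≤
      Real.exp ((2 - κ') * H + (1 + 1) * √(8 * q * κ' * H / Real.log H)) := by
    refine hup H _ hH2 ?_
    intro x hx
    obtain ⟨g1, g2⟩ := mem_filter.1 hx
    obtain ⟨-, k1, o1, A, hPA, htr⟩ := key x g1
    refine ⟨o1, k1, A, hPA, ?_⟩
    linarith
  have hgood : ((F.filter fun x => ¬ n x < hr (aff x) * (q - κ')).card : ℝ) ≤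
      ((RV T α M M' (Real.exp L)).ncard : ℝ) := by
    have hsub : (((F.filter fun x => ¬ n x < hr (aff x) * (q - κ')).image pt : Finset _) :
        Set _) ⊆ RV T α M M' (Real.exp L) := by
      intro P hP
      obtain ⟨x, hx, rfl⟩ := mem_image.1 (mem_coe.1 hP)
      obtain ⟨g1, g2⟩ := mem_filter.1 hx
      obtain ⟨⟨f1, f2⟩, k1, o1, A, hPA, htr⟩ := key x g1
      obtain ⟨n1, e1⟩ := pt_rep x
      have l1 : Height.logHeight (pt x).rep = hr (aff x) := by rw [ht_rep, e1]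
      rw [not_lt, ← hM'i, mul_one_div, div_le_iff₀ hM'0] at g2
      rw [← hMi, mul_one_div, lt_div_iff₀ hM0] at f2
      refine mem_RV.2 ⟨f1, ?_, ?_, ?_⟩
      · rw [hdL, ← hn, hY, le_div_iff₀ hM0]
        linarith
      · rw [l1, ← hn]
        linarith
      · rw [l1, ← hn]
        linarith
    have h7 := Set.ncard_le_ncard hsub (RV_finite T α (M := M) hM'0 _)
    rw [Set.ncard_coe_finset, card_image_of_injective _ pt_inj] at h7
    exact_mod_cast h7
  have hsplit := card_filter_add_card_filter_not (s := F) (fun x => n x < hr (aff x) * (q - κ'))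
  have hsplit' : (F.card : ℝ) = ((F.filter fun x => n x < hr (aff x) * (q - κ')).card : ℝ) +
      ((F.filter fun x => ¬ n x < hr (aff x) * (q - κ')).card : ℝ) := by
    exact_mod_cast hsplit.symm
  set s := √(24 * (q * κ / 3) * H / Real.log H) with hs
  have hs0 : 0 ≤ s := Real.sqrt_nonneg _
  have hlt : 0 < κ' - κ := by linarith
  have hκ'0 : 0 < κ' := hκ0.trans hκκ
  have hB1 : (1 + 1) * √(8 * q * κ' * H / Real.log H) ≤ (κ' - κ) * H := by
    have h7 : √(8 * q * κ' * H / Real.log H) ≤ (κ' - κ) * H / 2 := by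
      rw [Real.sqrt_le_left (by positivity)]
      have h8 : 8 * q * κ' * H / Real.log H ≤ 8 * q * κ' * H :=
        div_le_self (by positivity) hlogH
      refine h8.trans ?_
      rw [div_le_iff₀ (by positivity)] at hH4
      have h9 := mul_le_mul_of_nonneg_right hH4 hH0.le
      calc 8 * q * κ' * H = 32 * q * κ' * H / 4 := by ring
        _ ≤ H * (κ' - κ) ^ 2 * H / 4 := by linarith
        _ = ((κ' - κ) * H / 2) ^ 2 := by ring
    linarith
  have hB2 : Real.exp ((2 - κ') * H + (1 + 1) * √(8 * q * κ' * H / Real.log H)) ≤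
      Real.exp ((2 - κ) * H + (1 - ε) * s) := by
    apply Real.exp_le_exp.2
    have : 0 ≤ (1 - ε) * s := mul_nonneg (by linarith) hs0
    linarith
  have hB3 : Real.exp ((2 - κ) * H + (1 - ε) * s) * 2 ≤
      Real.exp ((2 - κ) * H + (1 - ε / 2) * s) := by
    calc Real.exp ((2 - κ) * H + (1 - ε) * s) * 2
        = Real.exp ((2 - κ) * H + (1 - ε) * s + Real.log 2) := by
          rw [Real.exp_add _ (Real.log 2), Real.exp_log two_pos]
      _ ≤ _ := Real.exp_le_exp.2 (by linarith)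
  linarith

end points

/-- **FINRQ**, the final theorem for the order by the counting function. -/
theorem finrq (K : Type) [Field K] [NumberField K] (q : ℕ) (κ₁ : ℝ) (h1 : S_BASQ K)
    (h3 : S_UPU K q κ₁) (h4 : S_UPQ K q κ₁) (h5 : S_LOJ K) (h6 : κ₁ ≤ 1) : S_FINRQ K q κ₁ := by
  intro T α M M' hT hq hα0 hα hM hMM hM'
  have hq3 : (3 : ℝ) ≤ q := by exact_mod_cast hq
  have hq0 : (0 : ℝ) < q := by linarith
  have hd : (0 : ℝ) < finrank ℚ K := fin_pos
  have hM0 : 0 < M := lt_trans (by positivity) hM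
  have hM'0 : 0 < M' := hM0.trans hMM
  refine ⟨fun X => RV_finite T α hM'0 X, ?_⟩
  have hκ0 : 0 < (q : ℝ) - 1 / M := by
    rw [sub_pos, div_lt_iff₀ hM0]
    rw [div_lt_iff₀ hq0] at hM
    linarith
  have hev : ∀ {p : ℝ → Prop}, (∀ᶠ H : ℝ in atTop, p H) →
      ∃ X₀ : ℝ, 1 < X₀ ∧ ∀ X : ℝ, X₀ ≤ X → p X := by
    intro p hp
    obtain ⟨a, ha⟩ := eventually_atTop.1 hp
    exact ⟨max a 2, lt_of_lt_of_le one_lt_two (le_max_right _ _),
      fun X hX => ha X ((le_max_left _ _).trans hX)⟩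
  have h7 := Pool.Agent.N906.RS.squeeze (k := q * ((q : ℝ) - 1 / M) / 3)
    (d := M * finrank ℚ K) (e := 2 - ((q : ℝ) - 1 / M)) (by positivity) (by positivity)
    (fun H => ((RV T α M M' (Real.exp (H / (M * finrank ℚ K)))).ncard : ℝ)) 0
    (fun ε hε => ?_) (fun ε hε hε1 => ?_)
  · have h8 := h7.comp Real.tendsto_log_atTop
    have e1 : 24 * (q * ((q : ℝ) - 1 / M) / 3) * (M * finrank ℚ K) =
        8 * q * ((q : ℝ) * M - 1) * finrank ℚ K := by
      field_simp
      ring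
    rw [e1] at h8
    refine h8.congr' ?_
    filter_upwards [eventually_gt_atTop (0 : ℝ)] with X hX
    have e2 : M * finrank ℚ K * Real.log X / (M * finrank ℚ K) = Real.log X := by field_simp
    have e3 : (2 - ((q : ℝ) - 1 / M)) * (M * finrank ℚ K * Real.log X) =
        finrank ℚ K * (1 - ((q : ℝ) - 2) * M) * Real.log X := by
      field_simp
      ring
    simp only [Function.comp_apply]
    rw [e2, e3, Real.exp_log hX]
  · apply hev
    have h8 := upperR h1 h3 hq hT hα0 hα hM0 hMM hκ0 hM' h6 (ε := min ε 1) (by positivity)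
      (min_le_right _ _)
    filter_upwards [h8] with H hH
    refine hH.trans (Real.exp_le_exp.2 ?_)
    have h9 : min ε 1 ≤ ε := min_le_left _ _
    gcongr
  · apply hev
    have h8 := lowerR h1 h4 h5 hq hT hα0 hα hM0 hMM hκ0 hM' h6 hε hε1
    filter_upwards [h8] with H hH
    rw [add_zero]
    exact hH

end Pool.Agent.N896.QP
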