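import Pool.Agent.Y522.Stm
import Pool.Agent.Y248.SH.Germ

/-!
# Project SH, task 4: the modified parabolic Moebius map
-/

set_option autoImplicit false

open Set Filter Topology Metric Function MeasureTheory
open scoped Manifold ContDiff

noncomputable section

namespace Pool.Agent.N896.SH

open Pool.Agent.Y522

/-- a smooth map with a differentiable local left inverse is a local diffeomorphism -/
theorem LD_of_left {n : ℕ} {f g : E n → E n} {x : E n} (hf : ∀ᶠ y in 𝓝 x, ContDiffAt ℝ ∞ f y)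
    (hg : DifferentiableAt ℝ g (f x)) (h : ∀ᶠ y in 𝓝 x, g (f y) = y) : LD n f x := by
  have hfx : DifferentiableAt ℝ f x := hf.self_of_nhds.differentiableAt (by simp)
  have h1 : HasFDerivAt (g ∘ f) ((fderiv ℝ g (f x)).comp (fderiv ℝ f x)) x :=
    hg.hasFDerivAt.comp x hfx.hasFDerivAt
  have h2 : HasFDerivAt (g ∘ f) (ContinuousLinearMap.id ℝ (E n)) x :=
    (hasFDerivAt_id x).congr_of_eventuallyEq h
  have h3 := h1.unique h2
  have hinj : Injective (fderiv ℝ f x : E n →ₗ[ℝ] E n) := by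
    intro a b hab
    have ha := congrArg (fun L => L a) h3
    have hb := congrArg (fun L => L b) h3
    simp only [ContinuousLinearMap.comp_apply, ContinuousLinearMap.id_apply] at ha hb
    have hab' : fderiv ℝ f x a = fderiv ℝ f x b := hab
    rw [← ha, ← hb, hab']
  let A : E n ≃ₗ[ℝ] E n := LinearEquiv.ofInjectiveEndo _ hinj
  refine LD_of_contDiffAt hf A.toContinuousLinearEquiv ?_
  have h4 : ((A.toContinuousLinearEquiv : E n ≃L[ℝ] E n) : E n →L[ℝ] E n) = fderiv ℝ f x := by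
    ext v : 1
    rfl
  rw [h4]
  exact hfx.hasFDerivAt

variable {m : ℕ}

/-- denominator -/
def Dn (K : ℝ) (z : E (m + 1)) : ℝ := 1 + 2 * K * z 0 + K ^ 2 * ‖z‖ ^ 2

/-- numerator -/
def Nn (K : ℝ) (z : E (m + 1)) : E (m + 1) := z + (K * ‖z‖ ^ 2) • e0

/-- the Moebius map -/
def Mm (K : ℝ) (z : E (m + 1)) : E (m + 1) := (Dn K z)⁻¹ • Nn K z

@[simp] theorem e0_zero : (e0 : E (m + 1)) 0 = 1 := rfl

@[simp] theorem tl_e0 : tl (e0 : E (m + 1)) = 0 := by
  simp [e0]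

@[simp] theorem norm_e0 : ‖(e0 : E (m + 1))‖ = 1 := by
  have h := norm_sq_split (e0 : E (m + 1))
  rw [e0_zero, tl_e0, norm_zero] at h
  have h1 := norm_nonneg (e0 : E (m + 1))
  have h2 : (‖(e0 : E (m + 1))‖ - 1) * (‖(e0 : E (m + 1))‖ + 1) = 0 := by linarith
  rcases mul_eq_zero.1 h2 with h3 | h3 <;> linarith

theorem Dn_eq (K : ℝ) (z : E (m + 1)) : Dn K z = (1 + K * z 0) ^ 2 + K ^ 2 * ‖tl z‖ ^ 2 := by
  rw [Dn, norm_sq_split]
  ring

theorem Dn_nonneg (K : ℝ) (z : E (m + 1)) : 0 ≤ Dn K z := by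
  rw [Dn_eq]
  positivity

theorem Dn_pos {K : ℝ} (hK : K ≠ 0) {z : E (m + 1)} (hz : z ≠ (-K⁻¹) • e0) : 0 < Dn K z := by
  refine lt_of_le_of_ne (Dn_nonneg K z) ?_
  intro h
  apply hz
  rw [Dn_eq] at h
  have h1 : 1 + K * z 0 = 0 := by nlinarith [sq_nonneg (1 + K * z 0), sq_nonneg (K * ‖tl z‖)]
  have h2 : K * ‖tl z‖ = 0 := by
    have : (K * ‖tl z‖) ^ 2 = 0 := by nlinarith [sq_nonneg (1 + K * z 0), sq_nonneg (K * ‖tl z‖)]
    exact pow_eq_zero_iff (two_ne_zero) |>.1 this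
  have h3 : tl z = 0 := by
    rcases mul_eq_zero.1 h2 with h | h
    · exact absurd h hK
    · exact norm_eq_zero.1 h
  have h4 : z 0 = -K⁻¹ := by
    field_simp
    linarith
  rw [← cn_tl z, h3, h4, cn_eq]
  have : cn 0 (0 : E m) = 0 := by
    rw [← inc_apply, map_zero]
  rw [this, add_zero]

theorem Nn_zero (K : ℝ) (z : E (m + 1)) : (Nn K z) 0 = z 0 + K * ‖z‖ ^ 2 := by
  simp [Nn]

theorem norm_Nn_sq (K : ℝ) (z : E (m + 1)) : ‖Nn K z‖ ^ 2 = ‖z‖ ^ 2 * Dn K z := by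
  rw [norm_sq_split (Nn K z), Nn_zero, Dn]
  have h1 : tl (Nn K z) = tl z := by
    simp [Nn]
  rw [h1]
  have h2 := norm_sq_split z
  have h3 : ‖tl z‖ ^ 2 = ‖z‖ ^ 2 - (z 0) ^ 2 := by linarith
  rw [h3]
  ring

theorem Mm_zero (K : ℝ) (z : E (m + 1)) : (Mm K z) 0 = (z 0 + K * ‖z‖ ^ 2) / Dn K z := by
  rw [Mm, PiLp.smul_apply, Nn_zero, smul_eq_mul, div_eq_inv_mul]

theorem norm_Mm_sq {K : ℝ} {z : E (m + 1)} (hz : 0 < Dn K z) :
    ‖Mm K z‖ ^ 2 = ‖z‖ ^ 2 / Dn K z := by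
  rw [Mm, norm_smul, mul_pow, norm_Nn_sq, Real.norm_eq_abs, sq_abs]
  field_simp

theorem Dn_Mm {K : ℝ} {z : E (m + 1)} (hz : 0 < Dn K z) : Dn (-K) (Mm K z) = (Dn K z)⁻¹ := by
  rw [Dn, norm_Mm_sq hz, Mm_zero]
  have h : Dn K z = 1 + 2 * K * z 0 + K ^ 2 * ‖z‖ ^ 2 := rfl
  field_simp
  rw [h]
  ring

theorem Mm_Mm {K : ℝ} {z : E (m + 1)} (hz : 0 < Dn K z) : Mm (-K) (Mm K z) = z := by
  have h1 : Mm (-K) (Mm K z) = (Dn (-K) (Mm K z))⁻¹ • (Mm K z + (-K * ‖Mm K z‖ ^ 2) • e0) := rfl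
  rw [h1, Dn_Mm hz, norm_Mm_sq hz, inv_inv, smul_add, Mm, smul_smul, mul_inv_cancel₀ hz.ne',
    one_smul, smul_smul, Nn, add_assoc, ← add_smul]
  have h2 : K * ‖z‖ ^ 2 + Dn K z * (-K * (‖z‖ ^ 2 / Dn K z)) = 0 := by
    field_simp
    ring
  rw [h2, zero_smul, add_zero]

theorem contDiff_head : ContDiff ℝ ∞ (fun z : E (m + 1) => z 0) :=
  (EuclideanSpace.proj (0 : Fin (m + 1)) : E (m + 1) →L[ℝ] ℝ).contDiff

theorem contDiff_Dn (K : ℝ) : ContDiff ℝ ∞ (Dn (m := m) K) := by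
  unfold Dn
  have := contDiff_head (m := m)
  exact ((contDiff_const.add (contDiff_const.mul this)).add
    (contDiff_const.mul (contDiff_norm_sq ℝ)))

theorem contDiff_Nn (K : ℝ) : ContDiff ℝ ∞ (Nn (m := m) K) := by
  unfold Nn
  exact contDiff_id.add ((contDiff_const.mul (contDiff_norm_sq ℝ)).smul contDiff_const)

theorem contDiffAt_Mm {K : ℝ} {z : E (m + 1)} (hz : 0 < Dn K z) : ContDiffAt ℝ ∞ (Mm K) z := by
  unfold Mm
  exact ((contDiff_Dn K).contDiffAt.inv hz.ne').smul (contDiff_Nn K).contDiffAt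

theorem eventually_Dn {K : ℝ} {z : E (m + 1)} (hz : 0 < Dn K z) : ∀ᶠ y in 𝓝 z, 0 < Dn K y :=
  (contDiff_Dn K).continuous.continuousAt.eventually (lt_mem_nhds hz)

theorem LD_Mm {K : ℝ} {z : E (m + 1)} (hz : 0 < Dn K z) : LD (m + 1) (Mm K) z := by
  refine LD_of_left (g := Mm (-K)) ?_ ?_ ?_
  · filter_upwards [eventually_Dn hz] with y hy using contDiffAt_Mm hy
  · refine (contDiffAt_Mm ?_).differentiableAt (by simp)
    rw [Dn_Mm hz]
    positivity
  · filter_upwards [eventually_Dn hz] with y hy using Mm_Mm hy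

@[simp] theorem Dn_z (K : ℝ) : Dn K (0 : E (m + 1)) = 1 := by
  simp [Dn]

@[simp] theorem Mm_z (K : ℝ) : Mm K (0 : E (m + 1)) = 0 := by
  simp [Mm, Nn]

theorem hasFDerivAt_Mm (K : ℝ) :
    HasFDerivAt (Mm K) (ContinuousLinearMap.id ℝ (E (m + 1))) 0 := by
  have h1 : HasFDerivAt (fun z : E (m + 1) => (Dn K z)⁻¹)
      (fderiv ℝ (fun z : E (m + 1) => (Dn K z)⁻¹) 0) 0 := by
    refine (ContDiffAt.differentiableAt (n := ∞) ?_ (by simp)).hasFDerivAt
    exact (contDiff_Dn K).contDiffAt.inv (by simp)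
  have h2 : HasFDerivAt (Nn (m := m) K) (ContinuousLinearMap.id ℝ (E (m + 1))) 0 := by
    unfold Nn
    have h3 : HasFDerivAt (fun z : E (m + 1) => (K * ‖z‖ ^ 2) • (e0 : E (m + 1)))
        (0 : E (m + 1) →L[ℝ] E (m + 1)) 0 := by
      have h4 : HasFDerivAt (fun z : E (m + 1) => K * ‖z‖ ^ 2) (0 : E (m + 1) →L[ℝ] ℝ) 0 := by
        have h5 := (hasStrictFDerivAt_norm_sq (0 : E (m + 1))).hasFDerivAt.const_mul K
        refine h5.congr_fderiv ?_
        ext v
        simp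
      have h6 := h4.smul_const (e0 : E (m + 1))
      refine h6.congr_fderiv ?_
      ext v
      simp
    have h7 := (hasFDerivAt_id (𝕜 := ℝ) (0 : E (m + 1))).add h3
    rw [add_zero] at h7
    exact h7
  have h8 := h1.smul h2
  have h9 : Nn K (0 : E (m + 1)) = 0 := by simp [Nn]
  refine h8.congr_fderiv ?_
  rw [h9]
  ext v i
  simp

/-- positivity -/
theorem Mm_pos {K : ℝ} (hK : 0 < K) {z : E (m + 1)} (hz : 0 < z 0) :
    0 < Dn K z ∧ 0 < (Mm K z) 0 := by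
  have h : 0 < Dn K z := by
    rw [Dn_eq]
    positivity
  refine ⟨h, ?_⟩
  rw [Mm_zero]
  positivity

theorem LD_of_injective {n : ℕ} {f : E n → E n} {x : E n}
    (hf : ∀ᶠ y in 𝓝 x, ContDiffAt ℝ ∞ f y) {L : E n →L[ℝ] E n} (hL : HasFDerivAt f L x)
    (hinj : Injective L) : LD n f x := by
  have hinj' : Injective (L : E n →ₗ[ℝ] E n) := hinj
  let A : E n ≃ₗ[ℝ] E n := LinearEquiv.ofInjectiveEndo _ hinj'
  refine LD_of_contDiffAt hf A.toContinuousLinearEquiv ?_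
  have h4 : ((A.toContinuousLinearEquiv : E n ≃L[ℝ] E n) : E n →L[ℝ] E n) = L := by
    ext v : 1
    rfl
  rw [h4]
  exact hL

/-- inversion in the unit sphere -/
def Iv {n : ℕ} (w : E n) : E n := (‖w‖ ^ 2)⁻¹ • w

theorem norm_Iv_sq {n : ℕ} {w : E n} (hw : w ≠ 0) : ‖Iv w‖ ^ 2 = (‖w‖ ^ 2)⁻¹ := by
  have h := norm_pos_iff.2 hw
  rw [Iv, norm_smul, mul_pow, Real.norm_eq_abs, sq_abs]
  field_simp

theorem Iv_Iv {n : ℕ} {w : E n} (hw : w ≠ 0) : Iv (Iv w) = w := by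
  have h := norm_pos_iff.2 hw
  have h1 : Iv (Iv w) = (‖Iv w‖ ^ 2)⁻¹ • Iv w := rfl
  rw [h1, norm_Iv_sq hw, inv_inv, Iv, smul_smul, mul_inv_cancel₀ (by positivity), one_smul]

theorem Iv_ne {n : ℕ} {w : E n} (hw : w ≠ 0) : Iv w ≠ 0 := by
  intro h
  apply hw
  rw [← Iv_Iv hw, h]
  simp [Iv]

theorem contDiffAt_Iv {n : ℕ} {w : E n} (hw : w ≠ 0) : ContDiffAt ℝ ∞ Iv w := by
  have h := norm_pos_iff.2 hw
  unfold Iv
  exact (((contDiff_norm_sq ℝ).contDiffAt).inv (by positivity)).smul contDiffAt_id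

theorem LD_Iv {n : ℕ} {w : E n} (hw : w ≠ 0) : LD n Iv w := by
  have h : ∀ᶠ y in 𝓝 w, y ≠ 0 := isOpen_ne.mem_nhds hw
  refine LD_of_left (g := Iv) ?_ ?_ ?_
  · filter_upwards [h] with y hy using contDiffAt_Iv hy
  · exact (contDiffAt_Iv (Iv_ne hw)).differentiableAt (by simp)
  · filter_upwards [h] with y hy using Iv_Iv hy

/-- numerator of the chart at infinity -/
def Pp {n : ℕ} (s : E n) (t : ℝ) (v : E n) : E n := (‖v‖ ^ 2) • s + t ^ 2 • v

/-- denominator of the chart at infinity -/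
def Qpo {n : ℕ} (s : E n) (t : ℝ) (v : E n) : ℝ :=
  ‖v‖ ^ 2 * ‖s‖ ^ 2 + 2 * t ^ 2 * inner ℝ s v + t ^ 4

theorem contDiff_Pp {n : ℕ} (s : E n) (t : ℝ) : ContDiff ℝ ∞ (Pp s t) := by
  unfold Pp
  exact ((contDiff_norm_sq ℝ).smul contDiff_const).add (contDiff_id.const_smul (t ^ 2))

theorem contDiff_Qpo {n : ℕ} (s : E n) (t : ℝ) : ContDiff ℝ ∞ (Qpo s t) := by
  unfold Qpo
  exact (((contDiff_norm_sq ℝ).mul contDiff_const).add
    (contDiff_const.mul (contDiff_const.inner ℝ contDiff_id))).add contDiff_const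

theorem Qpo_z {n : ℕ} (s : E n) (t : ℝ) : Qpo s t 0 = t ^ 4 := by simp [Qpo]

theorem hasFDerivAt_Pp {n : ℕ} (s : E n) (t : ℝ) :
    HasFDerivAt (Pp s t) (t ^ 2 • ContinuousLinearMap.id ℝ (E n)) 0 := by
  unfold Pp
  have h3 : HasFDerivAt (fun z : E n => (‖z‖ ^ 2) • s) (0 : E n →L[ℝ] E n) 0 := by
    have h4 : HasFDerivAt (fun z : E n => ‖z‖ ^ 2) (0 : E n →L[ℝ] ℝ) 0 := by
      have h5 := (hasStrictFDerivAt_norm_sq (0 : E n)).hasFDerivAt
      refine h5.congr_fderiv ?_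
      ext v
      simp
    have h6 := h4.smul_const s
    refine h6.congr_fderiv ?_
    ext v
    simp
  have h7 := h3.add ((hasFDerivAt_id (𝕜 := ℝ) (0 : E n)).const_smul (t ^ 2))
  rw [zero_add] at h7
  exact h7

theorem LD_J {n : ℕ} (s : E n) {t : ℝ} (ht : 0 < t) :
    LD n (fun v => (Qpo s t v)⁻¹ • Pp s t v) 0 := by
  have hQ : ∀ᶠ v in 𝓝 (0 : E n), 0 < Qpo s t v := by
    refine (contDiff_Qpo s t).continuous.continuousAt.eventually (lt_mem_nhds ?_)
    rw [Qpo_z]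
    positivity
  have h1 : HasFDerivAt (fun z : E n => (Qpo s t z)⁻¹)
      (fderiv ℝ (fun z : E n => (Qpo s t z)⁻¹) 0) 0 := by
    refine (ContDiffAt.differentiableAt (n := ∞) ?_ (by simp)).hasFDerivAt
    refine (contDiff_Qpo s t).contDiffAt.inv ?_
    exact hQ.self_of_nhds.ne'
  have h8 := h1.smul (hasFDerivAt_Pp s t)
  have h9 : Pp s t (0 : E n) = 0 := by simp [Pp]
  refine LD_of_injective ?_ h8 ?_
  · filter_upwards [hQ] with y hy
    exact ((contDiff_Qpo s t).contDiffAt.inv hy.ne').smul (contDiff_Pp s t).contDiffAt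
  · rw [h9, Qpo_z]
    intro a b hab
    have h10 : ((t ^ 4)⁻¹ * t ^ 2) • a = ((t ^ 4)⁻¹ * t ^ 2) • b := by
      simpa [smul_smul] using hab
    exact smul_right_injective _ (by positivity) h10

theorem norm_zz {n : ℕ} (s : E n) (t : ℝ) {v : E n} (hv : v ≠ 0) :
    ‖s + (t / ‖v‖) ^ 2 • v‖ ^ 2 = Qpo s t v / ‖v‖ ^ 2 := by
  have h := norm_pos_iff.2 hv
  rw [norm_add_sq_real, norm_smul, inner_smul_right, Qpo, Real.norm_eq_abs,
    abs_of_nonneg (by positivity)]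
  field_simp

theorem Iv_zz {n : ℕ} (s : E n) (t : ℝ) {v : E n} (hv : v ≠ 0) :
    Iv (s + (t / ‖v‖) ^ 2 • v) = (Qpo s t v)⁻¹ • Pp s t v := by
  have h := norm_pos_iff.2 hv
  have h1 : s + (t / ‖v‖) ^ 2 • v = (‖v‖ ^ 2)⁻¹ • Pp s t v := by
    rw [Pp, smul_add, smul_smul, smul_smul, inv_mul_cancel₀ (by positivity), one_smul]
    congr 2
    field_simp
  rw [Iv, norm_zz s t hv]
  rw [h1, smul_smul]
  congr 1
  rw [inv_div]
  field_simp

theorem Mm_eq_Iv {K : ℝ} {z : E (m + 1)} (hz : z ≠ 0) : Mm K z = Iv (Iv z + K • e0) := by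
  have h := norm_pos_iff.2 hz
  have h1 : Iv z + K • e0 = (‖z‖ ^ 2)⁻¹ • Nn K z := by
    rw [Iv, Nn, smul_add, smul_smul]
    congr 2
    field_simp
  rw [h1, Iv, norm_smul, mul_pow, norm_Nn_sq, Real.norm_eq_abs, sq_abs, smul_smul, Mm]
  congr 1
  by_cases hD : Dn K z = 0
  · rw [hD]
    simp
  · field_simp

theorem norm_Mm_le_of {K a : ℝ} {z : E (m + 1)} (ha : 0 < a) (hD : 0 < Dn K z)
    (h : ‖z‖ ^ 2 ≤ a ^ 2 * Dn K z) : ‖Mm K z‖ ≤ a := by
  have h1 := norm_Mm_sq hD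
  have h2 : ‖Mm K z‖ ^ 2 ≤ a ^ 2 := by
    rw [h1, div_le_iff₀ hD]
    exact h
  exact le_of_sq_le_sq h2 ha.le

theorem moebius : StMoebius := by
  intro m ρ r hρ hr
  -- the parameter
  obtain ⟨K, hK, hKρ, hKr⟩ : ∃ K : ℝ, 0 < K ∧ 4 < K * ρ ∧ 4 < K * r := by
    refine ⟨max (5 / ρ) (5 / r), by positivity, ?_, ?_⟩
    · have h1 : 5 / ρ * ρ ≤ max (5 / ρ) (5 / r) * ρ :=
        mul_le_mul_of_nonneg_right (le_max_left _ _) hρ.le
      rw [div_mul_cancel₀ _ hρ.ne'] at h1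
      linarith
    · have h1 : 5 / r * r ≤ max (5 / ρ) (5 / r) * r :=
        mul_le_mul_of_nonneg_right (le_max_right _ _) hr.le
      rw [div_mul_cancel₀ _ hr.ne'] at h1
      linarith
  have hKi : 0 < K⁻¹ := inv_pos.2 hK
  have hKK : K * K⁻¹ = 1 := mul_inv_cancel₀ hK.ne'
  have hiρ : 4 * K⁻¹ < ρ := by
    have : K⁻¹ * 4 < K⁻¹ * (K * ρ) := mul_lt_mul_of_pos_left hKρ hKi
    rw [← mul_assoc, inv_mul_cancel₀ hK.ne', one_mul] at this
    linarith
  have hir : 4 * K⁻¹ < r := by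
    have : K⁻¹ * 4 < K⁻¹ * (K * r) := mul_lt_mul_of_pos_left hKr hKi
    rw [← mul_assoc, inv_mul_cancel₀ hK.ne', one_mul] at this
    linarith
  set c : E (m + 1) := (-K⁻¹) • e0 with hc
  have hc0 : c 0 = -K⁻¹ := by simp [hc]
  have hcn : ‖c‖ = K⁻¹ := by
    rw [hc, norm_smul, norm_e0, mul_one, norm_neg, Real.norm_eq_abs, abs_of_pos hKi]
  have hD : ∀ z : E (m + 1), z ≠ c → 0 < Dn K z := fun z hz => Dn_pos hK.ne' hz
  set ε : ℝ := K⁻¹ / 2 with hε
  have hε0 : 0 < ε := by positivity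
  -- the germ
  obtain ⟨G, χ, hGb, hGd, hG0, hχ0, hχ1, hG⟩ := Pool.Agent.Y248.SH.germ (m + 1) (Mm K)
    (by
      filter_upwards [eventually_Dn (K := K) (z := (0 : E (m + 1))) (by simp)] with y hy
      exact contDiffAt_Mm hy) (Mm_z K) (hasFDerivAt_Mm K) ε hε0
  have hGfix : ∀ z, ε ≤ ‖z‖ → G z = z := by
    intro z hz
    rw [hG z, hχ0 z hz, zero_smul, add_zero]
  obtain ⟨H, hHG, hGH⟩ : ∃ H : E (m + 1) → E (m + 1), (∀ z, H (G z) = z) ∧ ∀ z, G (H z) = z :=
    ⟨(Equiv.ofBijective G hGb).symm, (Equiv.ofBijective G hGb).symm_apply_apply,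
      (Equiv.ofBijective G hGb).apply_symm_apply⟩
  have hHfix : ∀ z, ε ≤ ‖z‖ → H z = z := by
    intro z hz
    conv_lhs => rw [← hGfix z hz]
    exact hHG z
  have hHd : ∀ z, LD (m + 1) H z := LD.inverse_bij hGb hGd hHG
  have hHc : ∀ z, z ≠ c → H z ≠ c := by
    intro z hz h
    apply hz
    rw [← hGH z, h]
    apply hGfix
    rw [hcn, hε]
    linarith
  have hG00 : G 0 = 0 := by rw [hG]; simp
  have hH00 : H 0 = 0 := by
    conv_lhs => rw [← hG00]
    exact hHG 0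
  have hinjM : ∀ a b : E (m + 1), a ≠ c → b ≠ c → Mm K a = Mm K b → a = b := by
    intro a b ha hb hab
    rw [← Mm_Mm (hD a ha), ← Mm_Mm (hD b hb), hab]
  have hne : ∀ z : E (m + 1), z ≠ c → Mm K z ≠ K⁻¹ • e0 := by
    intro z hz h
    have hDz := hD z hz
    have h1 : (Mm K z) 0 = K⁻¹ := by rw [h]; simp
    have h2 : ‖Mm K z‖ ^ 2 = (K⁻¹) ^ 2 := by
      rw [h, norm_smul, norm_e0, mul_one, Real.norm_eq_abs, abs_of_pos hKi]
    rw [Mm_zero, div_eq_iff hDz.ne'] at h1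
    rw [norm_Mm_sq hDz, div_eq_iff hDz.ne'] at h2
    have h3 : Dn K z = 1 + 2 * K * z 0 + K ^ 2 * ‖z‖ ^ 2 := rfl
    have h4 : K * (z 0 + K * ‖z‖ ^ 2) = Dn K z := by
      rw [h1, ← mul_assoc, hKK, one_mul]
    have h5 : K ^ 2 * ‖z‖ ^ 2 = Dn K z := by
      rw [h2, ← mul_assoc, ← mul_pow, hKK, one_pow, one_mul]
    nlinarith
  refine ⟨fun z => Mm K (H z), c, by rw [hc0]; linarith, by rw [hcn]; linarith, ?_, ?_, ?_, ?_, ?_⟩
  · intro a ha b hb hab
    have h1 := hinjM _ _ (hHc a ha) (hHc b hb) hab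
    rw [← hGH a, ← hGH b, h1]
  · intro z hz
    exact LD.comp_fun (LD_Mm (hD _ (hHc z hz))) (hHd z)
  · have h1 : ∀ᶠ z in 𝓝 (0 : E (m + 1)), G (H z) = Mm K (H z) := by
      have h2 : Tendsto H (𝓝 0) (𝓝 0) := by
        have := (hHd 0).continuousAt
        unfold ContinuousAt at this
        rwa [hH00] at this
      exact h2.eventually hG0
    obtain ⟨τ, hτ, hτ'⟩ := Metric.eventually_nhds_iff.1 h1
    refine ⟨min τ ‖c‖, lt_min hτ (by rw [hcn]; exact hKi), min_le_right _ _, ?_⟩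
    intro z hz
    have h3 := hτ' (y := z) (by rw [dist_zero_right]; exact lt_of_lt_of_le hz (min_le_left _ _))
    change Mm K (H z) = z
    rw [← h3, hGH]
  · rintro z (hz | hz)
    · by_cases hw : ε ≤ ‖z‖
      · change 0 < (Mm K (H z)) 0 ∧ ‖Mm K (H z)‖ < r
        rw [hHfix z hw]
        obtain ⟨h1, h2⟩ := Mm_pos hK hz
        refine ⟨h2, lt_of_le_of_lt (norm_Mm_le_of hKi h1 ?_) (by linarith : K⁻¹ < r)⟩
        rw [Dn]
        have h3 : (K⁻¹) ^ 2 * (1 + 2 * K * z 0 + K ^ 2 * ‖z‖ ^ 2) =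
            (K⁻¹) ^ 2 * (1 + 2 * K * z 0) + (K * K⁻¹) ^ 2 * ‖z‖ ^ 2 := by ring
        rw [h3, hKK, one_pow, one_mul]
        have : 0 ≤ (K⁻¹) ^ 2 * (1 + 2 * K * z 0) := by positivity
        linarith
      · have hwe : ‖H z‖ < ε := by
          by_contra hcon
          push Not at hcon
          have h1 := hGfix _ hcon
          rw [hGH] at h1
          rw [← h1] at hcon
          exact hw hcon
        set w := H z with hwdef
        have hwc : w ≠ c := by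
          intro h
          rw [h, hcn, hε] at hwe
          linarith
        have hDw := hD w hwc
        have hDl : 1 / 4 ≤ Dn K w := by
          have h1 := abs_le.1 (abs_head_le w)
          have h2 : K * ‖w‖ ≤ 1 / 2 := by
            have : K * ‖w‖ ≤ K * ε := mul_le_mul_of_nonneg_left hwe.le hK.le
            rw [hε] at this
            linarith
          have h3 : 0 ≤ K * ‖w‖ := by positivity
          have h4 : -(K * ‖w‖) ≤ K * w 0 := by nlinarith
          rw [Dn]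
          nlinarith
        refine ⟨?_, ?_⟩
        · change 0 < (Mm K w) 0
          by_contra hcon
          push Not at hcon
          have h1 : w 0 + K * ‖w‖ ^ 2 ≤ 0 := by
            rw [Mm_zero] at hcon
            by_contra h2
            push Not at h2
            have := div_pos h2 hDw
            linarith
          have h2 : w 0 ≤ 0 := by nlinarith [sq_nonneg ‖w‖, hK]
          have h3 : z 0 = w 0 + χ w * ((Mm K w) 0 - w 0) := by
            conv_lhs => rw [← hGH z, ← hwdef, hG w]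
            simp
          have h4 := hχ1 w
          nlinarith [h4.1, h4.2]
        · change ‖Mm K w‖ < r
          refine lt_of_le_of_lt (norm_Mm_le_of hKi hDw ?_) (by linarith : K⁻¹ < r)
          have h1 : ‖w‖ ^ 2 ≤ ε ^ 2 := by
            exact pow_le_pow_left₀ (norm_nonneg _) hwe.le 2
          have h2 : (K⁻¹) ^ 2 * (1 / 4) ≤ (K⁻¹) ^ 2 * Dn K w :=
            mul_le_mul_of_nonneg_left hDl (by positivity)
          have h3 : ε ^ 2 = (K⁻¹) ^ 2 * (1 / 4) := by rw [hε]; ring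
          linarith
    · have hw : ε ≤ ‖z‖ := by linarith
      change 0 < (Mm K (H z)) 0 ∧ ‖Mm K (H z)‖ < r
      rw [hHfix z hw]
      have hzc : z ≠ c := by
        intro h
        rw [h, hcn] at hz
        linarith
      have hDz := hD z hzc
      have hKz : 4 < K * ‖z‖ := lt_of_lt_of_le hKρ (mul_le_mul_of_nonneg_left hz hK.le)
      have h1 := abs_le.1 (abs_head_le z)
      have hzn : 0 < ‖z‖ := by linarith
      refine ⟨?_, ?_⟩
      · rw [Mm_zero]
        refine div_pos ?_ hDz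
        nlinarith
      · refine lt_of_le_of_lt (norm_Mm_le_of (a := 2 * K⁻¹) (by positivity) hDz ?_)
          (by linarith : 2 * K⁻¹ < r)
        have h2 : (K * ‖z‖) ^ 2 / 4 ≤ Dn K z := by
          have h4 : -(K * ‖z‖) ≤ K * z 0 := by nlinarith
          rw [Dn]
          nlinarith
        have h3 : (2 * K⁻¹) ^ 2 * ((K * ‖z‖) ^ 2 / 4) = ‖z‖ ^ 2 := by
          have : (2 * K⁻¹) ^ 2 * ((K * ‖z‖) ^ 2 / 4) = (K * K⁻¹) ^ 2 * ‖z‖ ^ 2 := by ring
          rw [this, hKK]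
          ring
        rw [← h3]
        exact mul_le_mul_of_nonneg_left h2 (by positivity)
  · intro s t ht
    have hKe : K • (e0 : E (m + 1)) ≠ 0 := by
      intro h
      have := congrArg norm h
      rw [norm_smul, norm_e0, mul_one, norm_zero, Real.norm_eq_abs, abs_of_pos hK] at this
      linarith
    set ν : E (m + 1) → E (m + 1) := fun u =>
      Iv ((Qpo s t (u + (-s)))⁻¹ • Pp s t (u + (-s)) + K • e0) with hν
    have hνs : ν s = K⁻¹ • e0 := by
      have h0 : Pp s t (0 : E (m + 1)) = 0 := by simp [Pp]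
      have h1 : ν s = Iv (K • (e0 : E (m + 1))) := by
        simp only [hν]
        rw [add_neg_cancel, h0, smul_zero, zero_add]
      rw [h1, Iv, norm_smul, norm_e0, mul_one, Real.norm_eq_abs, sq_abs, smul_smul]
      congr 1
      field_simp
    refine ⟨ν, ?_, ?_, ?_, ?_, ?_⟩
    · have h1 : LD (m + 1) (fun u : E (m + 1) => u + (-s)) s := LD_add_const (-s) s
      have h2 : LD (m + 1) (fun v => (Qpo s t v)⁻¹ • Pp s t v) (s + (-s)) := by
        rw [add_neg_cancel]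
        exact LD_J s ht
      have h3 := LD.comp_fun (n := m + 1) (f := fun u : E (m + 1) => u + (-s))
        (g := fun v => (Qpo s t v)⁻¹ • Pp s t v) (x := s) h2 h1
      have h4 := LD.comp_fun (n := m + 1)
        (f := fun u : E (m + 1) => (Qpo s t (u + (-s)))⁻¹ • Pp s t (u + (-s)))
        (g := fun w : E (m + 1) => w + K • e0) (x := s) (LD_add_const (K • e0) _) h3
      refine LD.comp_fun (n := m + 1)
        (f := fun u : E (m + 1) => (Qpo s t (u + (-s)))⁻¹ • Pp s t (u + (-s)) + K • e0)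
        (g := Iv) (x := s) ?_ h4
      refine LD_Iv ?_
      have h0 : Pp s t (0 : E (m + 1)) = 0 := by simp [Pp]
      rw [add_neg_cancel, h0, smul_zero, zero_add]
      exact hKe
    · have h1 : ∀ᶠ u in 𝓝[≠] s, ‖u - s‖ < t ^ 2 / (ε + ‖s‖) := by
        have h2 : ∀ᶠ u in 𝓝 s, ‖u - s‖ < t ^ 2 / (ε + ‖s‖) := by
          have h3 : ContinuousAt (fun u : E (m + 1) => ‖u - s‖) s := by fun_prop
          refine h3.eventually (gt_mem_nhds ?_)
          change ‖s - s‖ < _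
          rw [sub_self, norm_zero]
          positivity
        exact h2.filter_mono nhdsWithin_le_nhds
      filter_upwards [h1, self_mem_nhdsWithin] with u hu hus
      have hv : u - s ≠ 0 := sub_ne_zero.2 hus
      have hvn := norm_pos_iff.2 hv
      have hbig : ε < ‖s + (t / ‖u - s‖) ^ 2 • (u - s)‖ := by
        have h4 : ‖(t / ‖u - s‖) ^ 2 • (u - s)‖ = t ^ 2 / ‖u - s‖ := by
          rw [norm_smul, Real.norm_eq_abs, abs_of_nonneg (by positivity)]
          field_simp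
        have h5 : ‖(t / ‖u - s‖) ^ 2 • (u - s)‖ ≤ ‖s + (t / ‖u - s‖) ^ 2 • (u - s)‖ + ‖s‖ := by
          have := norm_sub_le (s + (t / ‖u - s‖) ^ 2 • (u - s)) s
          rwa [add_sub_cancel_left] at this
        have h6 : ε + ‖s‖ < t ^ 2 / ‖u - s‖ := by
          rw [lt_div_iff₀ hvn]
          rw [lt_div_iff₀ (by positivity)] at hu
          linarith
        rw [h4] at h5
        linarith
      have hz0 : s + (t / ‖u - s‖) ^ 2 • (u - s) ≠ 0 := by
        intro h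
        rw [h, norm_zero] at hbig
        linarith
      rw [hHfix _ hbig.le, Mm_eq_Iv hz0, Iv_zz s t hv]
      simp only [hν]
      rw [← sub_eq_add_neg]
    · rw [hνs]
      simpa using hK
    · rw [hνs, norm_smul, norm_e0, mul_one, Real.norm_eq_abs, abs_of_pos hKi]
      linarith
    · intro z hz
      rw [hνs]
      exact hne _ (hHc z hz)

end Pool.Agent.N896.SH
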